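import Pool.Agent.Lib.MP_0d2ecd_gt.Mod.Stm

set_option autoImplicit false

/-!
# MP_0d2ecd_gt : the base belongs to the model
-/

open scoped Ordinal Cardinal

namespace Pool.Agent.NAM

open Pool.Agent.Lib.MP_0d2ecd_gt (W2 D)
open Pool.Agent.CR (V Nm nat natN Memf Eqf IsTransModelZFC)
open Pool.Agent.FW (Ev)

/-- the conditions which decide membership in a basic set -/
private def bm_E : List Ob → Nd → Set Cn
  | [.nd s], x => {p | x ∈ p.P ∧ s.Ec x}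
  | _, _ => ∅

private theorem bm_E_sub : ∀ (l : List Ob) (x : Nd) (p : Cn), p ∈ bm_E l x → x ∈ p.P := by
  intro l x p h
  unfold bm_E at h
  split at h
  · exact h.1
  · exact absurd h (Set.notMem_empty p)

private theorem bm_im_mono (M : Set Ob) (G : Set Cn) {O O' : Set Nd} (h : O ⊆ O') :
    im M G O ⊆ im M G O' := by
  rintro z ⟨x, hx, hz⟩
  exact ⟨x, h hx, hz⟩

private theorem bm_set (M : Set Ob) (G : Set Cn) (s : Nd) :
    {x | x ∈ PG M G ∧ ∃ p ∈ G, p ∈ bm_E [Ob.nd s] x} = BG M G s := by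
  ext x
  constructor
  · rintro ⟨hx, p, -, -, h⟩
    exact ⟨hx, h⟩
  · rintro ⟨hx, h⟩
    obtain ⟨p, hp, hxp⟩ := hx.2
    exact ⟨hx, p, hp, hxp, h⟩

private theorem bm_op (M : Set Ob) (G : Set Cn) (s : Nd) (hs : s ∈ TG M G) :
    Op M G (BG M G s) :=
  ⟨fun _ hx => hx.1, fun _ hx => ⟨s, hs, hx.2, subset_rfl⟩⟩

theorem p_BM (ij : S_IJ) (bg : S_BG) (el : S_EL) (xn : S_XN) (os : S_OS) (co : S_CO) : S_BM := by
  have _ := xn
  have hinj : Function.Injective Ob.nd := fun x y h => by injection h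
  have h1 := bg Nd Ob.nd hinj (fun _ s => bag elN (bm_E [Ob.nd s])) (fun _ s => {p | s ∈ p.T})
  refine ((h1.and (os bm_E bm_E_sub)).and el).mono ?_
  rintro M G ⟨⟨h1, h2⟩, h3, h4⟩
  have hname : ∀ s, Ob.nd s ∈ M → bag elN (bm_E [Ob.nd s]) ∈ pp.H M ∧
      pp.vl M G (bag elN (bm_E [Ob.nd s])) = cs (im M G (BG M G s)) := by
    intro s hs
    have h5 := h2 [Ob.nd s] (by simpa using hs)
    rw [bm_set] at h5
    exact h5
  obtain ⟨ha, -, hc⟩ := h1 [] (by simp)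
  have hfam : fam (BB M G) ∈ pp.N M G := by
    refine ⟨_, ha, ?_⟩
    ext z
    rw [ij.2.2.2.2.1]
    refine (hc z).trans ?_
    constructor
    · rintro ⟨s, hs, ⟨p, hp, hsp⟩, hz⟩
      exact ⟨_, ⟨s, ⟨hs, p, hp, hsp⟩, rfl⟩, hz.trans (hname s hs).2⟩
    · rintro ⟨_, ⟨s, ⟨hs, p, hp, hsp⟩, rfl⟩, hz⟩
      exact ⟨s, hs, ⟨p, hp, hsp⟩, hz.trans (hname s hs).2.symm⟩
  have hsub : BB M G ⊆ TT M G := by
    rintro W ⟨s, hs, rfl⟩
    obtain ⟨h5, h6⟩ := hname s hs.1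
    refine ⟨BG M G s, bm_op M G s hs, rfl, ?_⟩
    rw [← h6]
    exact ⟨_, h5, rfl⟩
  refine ⟨hfam, hsub, ⟨hsub, ?_⟩, ?_⟩
  · rintro O ⟨O', hO', rfl, -⟩ z ⟨x, hx, hz⟩
    obtain ⟨s, hs, hsx, hsub'⟩ := hO'.2 x hx
    exact ⟨im M G (BG M G s), ⟨s, hs, rfl⟩, ⟨x, ⟨hO'.1 hx, hsx⟩, hz⟩, bm_im_mono M G hsub'⟩
  · rintro z U ⟨s, hs, rfl⟩ U' ⟨t, ht, rfl⟩ ⟨x, hx, hzx⟩ ⟨y, hy, hzy⟩
    have hxy : x = y := h4 x y hx.1.1 hy.1.1 (by rw [← hzx, ← hzy])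
    subst hxy
    rcases co M G s t x hx hy with h | h
    · exact Or.inl (bm_im_mono M G h)
    · exact Or.inr (bm_im_mono M G h)

end Pool.Agent.NAM
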