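import Pool.Agent.Lib.MP_0d2ecd_gt.Mod.Stm

set_option autoImplicit false

/-!
# MP_0d2ecd_gt : chains of length `ω₁`
-/

open scoped Ordinal Cardinal

namespace Pool.Agent.NAM

open Pool.Agent.Lib.MP_0d2ecd_gt (W2 D)
open Pool.Agent.CR (V Nm nat natN Memf Eqf IsTransModelZFC)

private theorem ch_card : #W1 = ℵ_ 1 := by
  rw [Cardinal.mk_toType, Ordinal.card_omega]

/-- one step of the recursion -/
private theorem ch_step (np : S_NP) (fl : S_FL) {R : Cn → Nd → Nd → Nm Cn → Prop}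
    (hR : ∀ p q s t σ, q ≤ p → R p s t σ → R q s t σ) {p0 : Cn}
    (h0 : ∀ q ≤ p0, ∀ s ∈ q.T, ∃ r ≤ q, ∃ t ∈ r.T, ∃ σ, s.Ec t ∧ R r s t σ)
    (h : Cn) (hh : h ≤ p0) : ∃ (g : Cn) (t : Nd) (σ : Nm Cn), Ee g h ∧ t ∈ g.T ∧
      h.tp.Ec t ∧ R g h.tp t σ ∧ t.Ex g.tp ∧ t.len < g.top := by
  obtain ⟨np1, _, _, _, _, _, np7⟩ := np
  obtain ⟨r, hr, t, ht, σ, h1, h2⟩ := h0 h hh h.tp (np7 h)
  obtain ⟨g, hg1, hg2, hg3, hg4⟩ := fl h r h.tp t hr (np7 h) (h.len h.top) ht ⟨h1.1.le, h1.2⟩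
  refine ⟨g, t, σ, hg2, (np1 r g hg1).1 ht, h1, hR r g _ _ _ hg1 h2, ?_, lt_of_le_of_lt ht.1 hg3⟩
  exact hg4 g.tp (g.len g.top) hg2.2 fun ξ _ _ => rfl

/-- short chains with a bottom -/
private theorem ch_lb (lb : S_LB) (e1 : S_E1) (q : Cn) {J : Type} [LinearOrder J]
    (hJ : #J ≤ ℵ_ 1) (f : J → Cn) (h1 : ∀ i, Ee (f i) q) (h2 : ∀ i j, i < j → Ee (f j) (f i)) :
    ∃ q', Ee q' q ∧ ∀ j, Ee q' (f j) := by
  have hcard : #(WithBot J) ≤ ℵ_ 1 := by
    have h3 : #(WithBot J) = #J + 1 := Cardinal.mk_option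
    rw [h3]
    refine (add_le_add_left hJ 1).trans ?_
    rw [Cardinal.add_one_eq (Cardinal.aleph0_le_aleph 1)]
  let F : WithBot J → Cn := fun x => x.recBotCoe q f
  have hF0 : F ⊥ = q := rfl
  have hF1 : ∀ j : J, F j = f j := fun _ => rfl
  obtain ⟨q', hq', _⟩ := lb (WithBot J) F hcard (by
    intro i j hij
    induction i using WithBot.recBotCoe with
    | bot =>
      induction j using WithBot.recBotCoe with
      | bot => exact e1.1 _
      | coe j => exact h1 j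
    | coe i =>
      induction j using WithBot.recBotCoe with
      | bot => exact absurd hij (by simp)
      | coe j =>
        rcases lt_or_eq_of_le (WithBot.coe_le_coe.1 hij) with h | h
        · exact h2 i j h
        · rw [h]
          exact e1.1 _)
  exact ⟨q', hq' ⊥, fun j => hq' j⟩

/-- the node before -/
private theorem ch_ex {t : Nd} {g h : Cn} (h1 : t.Ex g.tp) (h2 : t.len < g.top) (h3 : Ee h g) :
    t.Ec h.tp := by
  refine ⟨?_, fun ξ hξ => ?_⟩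
  · exact lt_of_lt_of_le h2 (h3.1.1.trans_eq (h.len h.top).symm)
  · rw [h3.2 ξ (hξ.trans h2), h1.2 ξ hξ]

theorem p_CH (lb : S_LB) (e1 : S_E1) (np : S_NP) (fl : S_FL) : S_CH := by
  classical
  intro R hR p0 h0 q hq
  have hn1 : Nonempty Nd := ⟨q.tp⟩
  have hn2 : Nonempty (Nm Cn) := ⟨Nm.emp⟩
  choose! gg tt ss hs1 hs2 hs3 hs4 hs5 hs6 using fun h => ch_step np fl hR (p0 := p0) h0 h
  -- the recursion
  let HH : (j : W1) → ((i : W1) → i < j → Cn) → Cn := fun j prev =>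
    if hx : ∃ q', Ee q' q ∧ ∀ i (hi : i < j), Ee q' (prev i hi) then hx.choose else q
  let F : W1 → Cn := (IsWellFounded.wf (r := ((· < ·) : W1 → W1 → Prop))).fix
    (C := fun _ => Cn) (fun j prev => gg (HH j prev))
  let h : W1 → Cn := fun j => HH j fun i _ => F i
  have hF : ∀ j, F j = gg (h j) := fun j => WellFounded.fix_eq _ _ _
  have hP : ∀ j, Ee (h j) q ∧ ∀ i < j, Ee (h j) (F i) := by
    intro j
    induction j using WellFoundedLT.induction with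
    | ind j ih =>
      have hex : ∃ q', Ee q' q ∧ ∀ i (hi : i < j), Ee q' (F i) := by
        have hJ : #{i : W1 // i < j} ≤ ℵ_ 1 := by
          rw [← ch_card]
          exact Cardinal.mk_subtype_le _
        have hk : ∀ k < j, Ee (F k) (h k) := by
          intro k hk
          rw [hF k]
          exact hs1 (h k) ((ih k hk).1.1.trans hq)
        obtain ⟨q', h1, h2⟩ := ch_lb lb e1 q hJ (fun i : {i : W1 // i < j} => F i.1)
          (fun i => e1.2.1 _ _ _ (hk i.1 i.2) (ih i.1 i.2).1)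
          (fun i k hik => e1.2.1 _ _ _ (hk k.1 k.2) ((ih k.1 k.2).2 i.1 hik))
        exact ⟨q', h1, fun i hi => h2 ⟨i, hi⟩⟩
      have hh : h j = hex.choose := dif_pos hex
      rw [hh]
      exact hex.choose_spec
  have hle : ∀ j, h j ≤ p0 := fun j => (hP j).1.1.trans hq
  have hFh : ∀ j, Ee (F j) (h j) := by
    intro j
    rw [hF j]
    exact hs1 (h j) (hle j)
  obtain ⟨q', hq1, hq2⟩ := ch_lb lb e1 q ch_card.le F
    (fun i => e1.2.1 _ _ _ (hFh i) (hP i).1)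
    (fun i j hij => e1.2.1 _ _ _ (hFh j) ((hP j).2 i hij))
  have hq3 : ∀ i, Ee q' (gg (h i)) := by
    intro i
    rw [← hF i]
    exact hq2 i
  refine ⟨q', hq1.1, fun i => (h i).tp, fun i => tt (h i), fun i => ss (h i), fun i => ?_⟩
  have h5 := ch_ex (hs5 (h i) (hle i)) (hs6 (h i) (hle i)) (hq3 i)
  refine ⟨?_, ?_, hs3 (h i) (hle i), ⟨h5.1.le, h5.2⟩,
    hR _ _ _ _ _ (hq3 i).1 (hs4 (h i) (hle i)), ?_⟩
  · exact (np.1 (h i) q' ((hq2 i).1.trans (hFh i).1)).1 (np.2.2.2.2.2.2 (h i))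
  · exact (np.1 _ q' (hq3 i).1).1 (hs2 (h i) (hle i))
  · intro j hij
    refine ch_ex (hs5 (h i) (hle i)) (hs6 (h i) (hle i)) ?_
    rw [← hF i]
    exact (hP j).2 i hij

end Pool.Agent.NAM
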