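import Pool.Agent.Lib.MP_0d2ecd_gt.Mod.Stm

set_option autoImplicit false

/-!
# MP_0d2ecd_gt : basic sets are comparable or disjoint
-/

namespace Pool.Agent.NAM

private theorem co_sub {M : Set Ob} {G : Set Cn} {s t x : Nd} (hs : s.Ec x) (ht : t.Ec x)
    (h : s.len ≤ t.len) : BG M G t ⊆ BG M G s := by
  rintro y ⟨hy, hty⟩
  refine ⟨hy, lt_of_le_of_lt h hty.1, fun ξ hξ => ?_⟩
  rw [hty.2 ξ (lt_of_lt_of_le hξ h), ← ht.2 ξ (lt_of_lt_of_le hξ h), hs.2 ξ hξ]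

theorem p_CO : S_CO := by
  intro M G s t x hs ht
  rcases le_total s.len t.len with h | h
  · exact Or.inr (co_sub hs.2 ht.2 h)
  · exact Or.inl (co_sub ht.2 hs.2 h)

end Pool.Agent.NAM
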