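import Pool.Agent.Lib.MP_0d2ecd_gt.Mod.Stm

set_option autoImplicit false

/-!
# MP_0d2ecd_gt : the exact order
-/

open scoped Ordinal

namespace Pool.Agent.NAM

open Pool.Agent.Lib.MP_0d2ecd_gt (W2 D D_symm D_tri D_mono D_congr exists_gt_W2)

/-- the extension of `r` with the top node given by `f` -/
theorem e1_ext (r : Cn) (b : W2) (hb : r.top < b) (f : W2 → Bool)
    (hf : (D r.top f r.tp.f).Finite) :
    ∃ q : Cn, q ≤ r ∧ q.top = b ∧ ∀ ξ < b, q.tp.f ξ = f ξ := by
  classical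
  let nn : W2 → Nd := fun γ =>
    { len := γ, f := fun ξ => if ξ < γ then f ξ else false,
      out := fun _ hξ => if_neg (not_lt.2 hξ) }
  have hnn : ∀ γ ξ, ξ < γ → (nn γ).f ξ = f ξ := fun γ ξ h => if_pos h
  let rr : W2 → Nd := fun γ => if γ ≤ r.top then r.r γ else nn γ
  have hr1 : ∀ γ, γ ≤ r.top → rr γ = r.r γ := fun γ h => if_pos h
  have hr2 : ∀ γ, ¬ γ ≤ r.top → rr γ = nn γ := fun γ h => if_neg h
  let q : Cn :=
    { top := b
      r := rr
      len := by
        intro γ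
        by_cases h : γ ≤ r.top
        · rw [hr1 γ h]; exact r.len γ
        · rw [hr2 γ h]
      coh := by
        intro γ δ hδ hγ
        by_cases h : γ ≤ r.top
        · rw [hr1 γ h, hr1 δ (hδ.trans h)]
          exact r.coh γ δ hδ h
        · rw [hr2 γ h]
          by_cases h' : δ ≤ r.top
          · rw [hr1 δ h']
            refine Set.Finite.subset (Set.Finite.union hf (r.coh r.top δ h' le_rfl)) ?_
            refine (D_tri δ (nn γ).f r.tp.f (r.r δ).f).trans (Set.union_subset_union ?_ subset_rfl)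
            rw [D_congr (s' := f) r.tp.f (fun ξ hξ => hnn γ ξ (lt_of_lt_of_le hξ hδ))]
            exact D_mono h' f r.tp.f
          · rw [hr2 δ h']
            have : D δ (nn γ).f (nn δ).f = ∅ := by
              ext ξ
              simp only [D, Set.mem_ofPred_eq, Set.mem_empty_iff_false, iff_false]
              rintro ⟨h1, h2⟩
              exact h2 (by rw [hnn δ ξ h1, hnn γ ξ (lt_of_lt_of_le h1 hδ)])
            rw [this]
            exact Set.finite_empty }
  refine ⟨q, ⟨hb.le, fun γ hγ => hr1 γ hγ⟩, rfl, fun ξ hξ => ?_⟩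
  have h1 : q.tp = nn b := hr2 b (not_le.2 hb)
  rw [h1]
  exact hnn b ξ hξ

theorem p_E1 : S_E1 := by
  refine ⟨fun p => ⟨le_rfl, fun _ _ => rfl⟩, fun p q r h1 h2 => ?_, fun p r h => ?_, fun p α => ?_⟩
  · exact ⟨h1.1.trans h2.1, fun ξ hξ =>
      (h1.2 ξ (lt_of_lt_of_le hξ h2.1.1)).trans (h2.2 ξ hξ)⟩
  · classical
    obtain ⟨b, hb⟩ := exists_gt_W2 r.top
    have e : r.r p.top = p.tp := h.2 p.top le_rfl
    obtain ⟨q, hq1, hq2, hq3⟩ := e1_ext r b hb
      (fun ξ => if ξ < p.top then p.tp.f ξ else r.tp.f ξ) (by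
        refine Set.Finite.subset (r.coh r.top p.top h.1 le_rfl) ?_
        rintro ξ ⟨hξ1, hξ2⟩
        by_cases hx : ξ < p.top
        · refine ⟨hx, fun hh => hξ2 ?_⟩
          refine (if_pos hx).trans ?_
          rw [← e]
          exact hh.symm
        · exact absurd (if_neg hx) hξ2)
    refine ⟨q, hq1, hq1.trans h, fun ξ hξ => ?_⟩
    rw [hq3 ξ (lt_of_lt_of_le hξ (h.1.trans hb.le)), if_pos hξ]
  · obtain ⟨b, hb⟩ := exists_gt_W2 (max α p.top)
    obtain ⟨q, hq1, hq2, hq3⟩ := e1_ext p b (lt_of_le_of_lt (le_max_right _ _) hb) p.tp.f (by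
        refine Set.Finite.subset Set.finite_empty ?_
        rintro ξ ⟨-, hξ2⟩
        exact absurd rfl hξ2)
    refine ⟨q, ⟨hq1, fun ξ hξ => hq3 ξ ?_⟩, ?_, ?_⟩
    · exact lt_trans (lt_of_lt_of_le hξ (le_max_right _ _)) hb
    · rw [hq2]; exact lt_of_le_of_lt (le_max_left _ _) hb
    · rw [hq2]; exact lt_of_le_of_lt (le_max_right _ _) hb

end Pool.Agent.NAM
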