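import Pool.Agent.Lib.MP_0d2ecd_gt.Mod.Stm

set_option autoImplicit false

/-!
# MP_0d2ecd_gt : a base gives a long chain
-/

open scoped Ordinal Cardinal

namespace Pool.Agent.NAM

open Pool.Agent.Lib.MP_0d2ecd_gt (W2 D)
open Pool.Agent.CR (V Nm nat natN Memf Eqf Memf_mono mem_val)
open Pool.Agent.FW (Ev ev_rel ev_fun ev_gen ev_below ev_mem ev_dir ev_sub)

private def fc_R (ν : Nm Cn) (p : Cn) (s t : Nd) (σ : Nm Cn) : Prop :=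
  Memf σ ν p ∧ FD σ p t ∧ FU σ p s

private theorem fc_mono {ν : Nm Cn} {p q : Cn} {s t : Nd} {σ : Nm Cn} (h : q ≤ p)
    (hR : fc_R ν p s t σ) : fc_R ν q s t σ :=
  ⟨Memf_mono hR.1 h, fun r hr => hR.2.1 r (hr.trans h), fun r hr => hR.2.2 r (hr.trans h)⟩

private def fc_Good (ν : Nm Cn) (q : Cn) (X : (W1 → Nd) × (W1 → Nd) × (W1 → Nm Cn)) : Prop :=
  ∀ i, X.1 i ∈ q.T ∧ X.2.1 i ∈ q.T ∧ (X.1 i).Ec (X.2.1 i) ∧ (X.2.1 i).Ex q.tp ∧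
    fc_R ν q (X.1 i) (X.2.1 i) (X.2.2 i) ∧ ∀ j, i < j → (X.2.1 i).Ec (X.1 j)

private def fc_S1 : List Ob → Set Cn
  | [.nm ν] => {q | ∃ s ∈ q.T, ∀ r ≤ q, ∀ t ∈ r.T, ∀ σ, s.Ec t → ¬ fc_R ν r s t σ}
  | _ => ∅

private def fc_S2 : List Ob → Set Cn
  | [.nm ν] => {q | ∃ X, fc_Good ν q X}
  | _ => ∅

open Classical in
private noncomputable def fc_F1 : List Ob → Ob
  | [.nm ν, .cn q] => if h : ∃ X, fc_Good ν q X then .f1 (fun i => .nd (h.choose.1 i)) else .no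
  | _ => .no

open Classical in
private noncomputable def fc_F2 : List Ob → Ob
  | [.nm ν, .cn q] => if h : ∃ X, fc_Good ν q X then .f1 (fun i => .nd (h.choose.2.1 i)) else .no
  | _ => .no

open Classical in
private noncomputable def fc_F3 : List Ob → Ob
  | [.nm ν, .cn q] => if h : ∃ X, fc_Good ν q X then .f1 (fun i => .nm (h.choose.2.2 i)) else .no
  | _ => .no

private theorem fc_a (np : S_NP) (el : S_EL) (xn : S_XN) (gf : S_GF) (g6 : S_G6) (fd : S_FD)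
    (fu : S_FU) (ij : S_IJ) (bm : S_BM) : Ev pp (fun M G => ∀ ν ∈ pp.H M,
      ∀ B : Set (Set (El (Av M G))), pp.vl M G ν = fam B → IsBase B (TT M G) → ∀ s ∈ TG M G,
      ∃ t σ, ∃ p ∈ G, s.Ec t ∧ t ∈ p.T ∧ fc_R ν p s t σ) := by
  refine (el.and (xn.and (gf.and (g6.and (fd.and (fu.and (bm.and
    ((ev_mem (π := pp)).and ev_dir)))))))).mono ?_
  rintro M G ⟨⟨_, hel⟩, ⟨_, hAv, _, _, hxn⟩, ⟨_, _, _, _, _, hlen, _, _, hres, hlim, _⟩, ⟨hne, _⟩,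
    hfd, hfu, ⟨_, hBT, _, _⟩, hmem, hdir⟩ ν hν B hB hbase s hs
  obtain ⟨x, hxP, hsx⟩ := hne s hs
  have hx0 : pp.vl M G (elN x) ∈ Av M G := (hAv _).2 ⟨x, hxP, rfl⟩
  obtain ⟨U, hUB, hxU, hUs⟩ := hbase.2 (im M G (BG M G s)) (hBT ⟨s, hs, rfl⟩)
    ⟨pp.vl M G (elN x), hx0⟩ ⟨x, ⟨hxP, hsx⟩, rfl⟩
  obtain ⟨O', hO', rfl, _⟩ := hbase.1 hUB
  obtain ⟨x', hx'O, hx'⟩ := hxU
  have hxx : x = x' := hel x x' hxP.1 (hO'.1 hx'O).1 hx'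
  subst hxx
  obtain ⟨s', hs', hs'x, hs'O⟩ := hO'.2 x hx'O
  -- the level
  obtain ⟨δ, hδM, hδ1, hδ2, hδx⟩ : ∃ δ, Ob.od δ ∈ M ∧ s.len < δ ∧ s'.len < δ ∧ δ < x.len := by
    rcases le_total s.len s'.len with h | h
    · obtain ⟨δ, h1, h2, h3⟩ := hlim x hxP s'.len (hlen _ hs'.1) hs'x.1
      exact ⟨δ, h1, h.trans_lt h2, h2, h3⟩
    · obtain ⟨δ, h1, h2, h3⟩ := hlim x hxP s.len (hlen _ hs.1) hsx.1
      exact ⟨δ, h1, h2, h.trans_lt h2, h3⟩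
  have htT := hres x hxP δ hδM hδx
  obtain ⟨t, ht⟩ : ∃ t, t = x.res δ := ⟨_, rfl⟩
  have htl : t.len = δ := by rw [ht]; rfl
  have htf : ∀ ξ < δ, t.f ξ = x.f ξ := by
    intro ξ hξ
    rw [ht]
    exact if_pos hξ
  rw [← ht] at htT
  have hst : s.Ec t := by
    refine ⟨by rw [htl]; exact hδ1, fun ξ hξ => ?_⟩
    rw [htf ξ (hξ.trans hδ1)]
    exact hsx.2 ξ hξ
  have htO : BG M G t ⊆ O' := by
    rintro y ⟨hyP, hty⟩
    refine hs'O ⟨hyP, hδ2.trans (by rw [← htl]; exact hty.1), fun ξ hξ => ?_⟩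
    rw [hty.2 ξ (by rw [htl]; exact hξ.trans hδ2), htf ξ (hξ.trans hδ2)]
    exact hs'x.2 ξ hξ
  -- the name
  have hcU : cs (im M G O') ∈ pp.vl M G ν := by
    rw [hB]
    exact (ij.2.2.2.1 _ B _).2 hUB
  obtain ⟨b, hbH, hbG, hbv⟩ := mem_val.1 hcU
  obtain ⟨σ, hσ⟩ : ∃ σ, σ = ν.fn b := ⟨_, rfl⟩
  rw [← hσ] at hbH hbv
  have hσv : pp.vl M G σ = cs (im M G O') := hbv.symm
  obtain ⟨p1, hp1, hp1'⟩ := (hmem σ hbH ν hν).1 (by rw [hσv]; exact hcU)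
  obtain ⟨p2, hp2, hp2'⟩ := (hfd σ hbH t htT).1 (by
    intro y hy
    rw [hσv]
    exact (hxn O' y hO'.1 hy.1).2 (htO hy))
  obtain ⟨p3, hp3, hp3'⟩ := (hfu σ hbH s hs).1 (by
    intro y hy hyσ
    rw [hσv, ij.2.2.1] at hyσ
    obtain ⟨h, hy2⟩ := hyσ
    obtain ⟨y', hy', hyy⟩ := hUs hy2
    have hyy' : y = y' := hel y y' hy.1 hy'.1.1 hyy
    rw [hyy']
    exact hy'.2)
  obtain ⟨_, p4, hp4, hp4'⟩ := htT
  obtain ⟨q1, hq1, h12, h13⟩ := hdir p1 hp1 p2 hp2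
  obtain ⟨q2, hq2, h24, h25⟩ := hdir p3 hp3 p4 hp4
  obtain ⟨q, hq, h6, h7⟩ := hdir q1 hq1 q2 hq2
  refine ⟨t, σ, q, hq, hst, (np.1 p4 q (h7.trans h25)).1 hp4', Memf_mono hp1' (h6.trans h12), ?_, ?_⟩
  · exact fun r hr => hp2' r (hr.trans (h6.trans h13))
  · exact fun r hr => hp3' r (hr.trans (h7.trans h24))

theorem p_FC (np : S_NP) (ch : S_CH) (el : S_EL) (xn : S_XN) (gf : S_GF) (g6 : S_G6) (fd : S_FD)
    (fu : S_FU) (ij : S_IJ) (bm : S_BM) : S_FC := by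
  classical
  refine ((fc_a np el xn gf g6 fd fu ij bm).and (gf.and ((ev_gen (π := pp) fc_S1).and
    ((ev_below (π := pp) fc_S2).and ((ev_rel (π := pp) (fun l x => ∃ ν q s,
      l = [.nm ν, .cn q] ∧ x = .nd s ∧ s ∈ q.T ∧
        ∀ r ≤ q, ∀ t ∈ r.T, ∀ σ, s.Ec t → ¬ fc_R ν r s t σ)).and
    ((ev_fun (π := pp) fc_F1).and ((ev_fun (π := pp) fc_F2).and ((ev_fun (π := pp) fc_F3).and
    (ev_dir.and ev_sub))))))))).mono ?_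
  rintro M G ⟨ha, ⟨_, hTG, _, _, _, _, _, _, _, _, _⟩, hgen, hbel, hrel, hF1, hF2, hF3, hdir, hsub⟩
    ν hν B hB hbase
  have hν' : Ob.nm ν ∈ M := hν
  have ha' := ha ν hν B hB hbase
  have hl : ∀ x ∈ [Ob.nm ν], x ∈ M := by
    intro x hx
    rw [List.mem_singleton] at hx
    rw [hx]
    exact hν'
  have hl2 : ∀ q ∈ G, ∀ x ∈ [Ob.nm ν, Ob.cn q], x ∈ M := by
    intro q hq x hx
    simp only [List.mem_cons, List.not_mem_nil, or_false] at hx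
    rcases hx with rfl | rfl
    · exact hν'
    · exact hsub hq
  rcases hgen [.nm ν] hl with ⟨q, hq, hqS⟩ | ⟨p0, hp0, hp0'⟩
  · exfalso
    obtain ⟨s0, hs0, hs0'⟩ := hqS
    obtain ⟨_, hxM, ν', q', s, h1, rfl, h2, h3⟩ := hrel [.nm ν, .cn q] (hl2 q hq)
      ⟨.nd s0, ν, q, s0, rfl, rfl, hs0, hs0'⟩
    simp only [List.cons.injEq, Ob.nm.injEq, Ob.cn.injEq, and_true] at h1
    obtain ⟨rfl, rfl⟩ := h1
    have hsT : s ∈ TG M G := hTG q hq s hxM h2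
    obtain ⟨t, σ, p, hp, h4, h5, h6⟩ := ha' s hsT
    obtain ⟨r, _, hr1, hr2⟩ := hdir q hq p hp
    exact h3 r hr1 t ((np.1 p r hr2).1 h5) σ h4 (fc_mono hr2 h6)
  · have hyp : ∀ q ≤ p0, ∀ s ∈ q.T, ∃ r ≤ q, ∃ t ∈ r.T, ∃ σ, s.Ec t ∧ fc_R ν r s t σ := by
      intro q hq s hs
      by_contra hno
      refine hp0' q ⟨s, hs, fun r hr t ht σ h1 h2 => hno ⟨r, hr, t, ht, σ, h1, h2⟩⟩ q hq le_rfl
    have hch := ch (fc_R ν) (fun p q s t σ h h' => fc_mono h h') p0 hyp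
    obtain ⟨q, hq, _, hqS⟩ := hbel [.nm ν] hl p0 hp0 (by
      intro q hq
      obtain ⟨q', hq', s, t, σ, h⟩ := hch q hq
      exact ⟨q', hq', (s, t, σ), h⟩)
    have hex : ∃ X, fc_Good ν q X := hqS
    have h1 := hF1 [.nm ν, .cn q] (hl2 q hq)
    have h2 := hF2 [.nm ν, .cn q] (hl2 q hq)
    have h3 := hF3 [.nm ν, .cn q] (hl2 q hq)
    simp only [fc_F1, dif_pos hex] at h1
    simp only [fc_F2, dif_pos hex] at h2
    simp only [fc_F3, dif_pos hex] at h3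
    refine ⟨q, hq, hex.choose.1, hex.choose.2.1, hex.choose.2.2, h1, h2, h3, fun i => ?_⟩
    obtain ⟨k1, k2, k3, k4, k5, k6⟩ := hex.choose_spec i
    exact ⟨k1, k2, k3, k4, k5.1, k5.2.1, k5.2.2, k6⟩

end Pool.Agent.NAM
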