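import Pool.Agent.Lib.MP_0d2ecd_gt.Mod.Stm

set_option autoImplicit false

/-!
# MP_0d2ecd_gt : truth for `FD`
-/

open scoped Ordinal Cardinal

namespace Pool.Agent.NAM

open Pool.Agent.Lib.MP_0d2ecd_gt (W2 D)
open Pool.Agent.CR (V Nm nat natN Memf Eqf Memf_mono Memf_reg)
open Pool.Agent.FW (Ev ev_rel ev_gen ev_mem ev_dir ev_sub)

/-- the set of the conditions which give a point outside the set named by `σ` -/
private def fdS (σ : Nm Cn) (t : Nd) : Set Cn :=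
  {q | ∃ x ∈ q.P, t.Ec x ∧ ∀ r ≤ q, ¬ Memf (elN x) σ r}

private theorem fd_rel : Ev pp (fun M _ => ∀ (σ : Nm Cn) (t : Nd) (q : Cn), Ob.nm σ ∈ M →
    Ob.nd t ∈ M → Ob.cn q ∈ M → q ∈ fdS σ t →
    ∃ x, Ob.nd x ∈ M ∧ x ∈ q.P ∧ t.Ec x ∧ ∀ r ≤ q, ¬ Memf (elN x) σ r) := by
  refine (ev_rel (π := pp) (fun l y => ∃ σ t q x, l = [.nm σ, .nd t, .cn q] ∧ y = .nd x ∧
    x ∈ q.P ∧ t.Ec x ∧ ∀ r ≤ q, ¬ Memf (elN x) σ r)).mono ?_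
  rintro M G h σ t q hσ ht hq ⟨x, hx, htx, hr⟩
  obtain ⟨y, hy, σ', t', q', x', h1, rfl, h2, h3, h4⟩ := h [.nm σ, .nd t, .cn q] (by
    simp [hσ, ht, hq]) ⟨.nd x, σ, t, q, x, rfl, rfl, hx, htx, hr⟩
  simp only [List.cons.injEq, Ob.nm.injEq, Ob.cn.injEq, Ob.nd.injEq, and_true] at h1
  obtain ⟨rfl, rfl, rfl⟩ := h1
  exact ⟨x', hy, h2, h3, h4⟩

private theorem fd_gen : Ev pp (fun M G => ∀ (σ : Nm Cn) (t : Nd), Ob.nm σ ∈ M →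
    Ob.nd t ∈ M → (∃ q ∈ G, q ∈ fdS σ t) ∨ ∃ p ∈ G, ∀ s ∈ fdS σ t, ∀ r ≤ p, ¬ r ≤ s) := by
  refine (ev_gen (π := pp) (fun l => match l with
    | [.nm σ, .nd t] => fdS σ t
    | _ => ∅)).mono ?_
  rintro M G h σ t hσ ht
  exact h [.nm σ, .nd t] (by simp [hσ, ht])

theorem p_FD (el : S_EL) (_xn : S_XN) (np : S_NP) : S_FD := by
  refine (el.and (fd_rel.and (fd_gen.and (ev_mem.and (ev_dir.and ev_sub))))).mono ?_
  rintro M G ⟨⟨hel, _⟩, hrel, hgen, hmem, hdir, hsub⟩ σ hσ t ⟨htM, p0, hp0, ht0⟩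
  have hσ' : Ob.nm σ ∈ M := hσ
  constructor
  · intro hx
    rcases hgen σ t hσ' htM with ⟨q, hq, hqS⟩ | ⟨p, hp, hpS⟩
    · exfalso
      obtain ⟨x, hxM, hxq, htx, hr⟩ := hrel σ t q hσ' htM (hsub hq) hqS
      have h1 := hx x ⟨⟨hxM, q, hq, hxq⟩, htx⟩
      obtain ⟨p, hp, hpm⟩ := (hmem _ (hel x hxM) _ hσ).1 h1
      obtain ⟨r, _, hr1, hr2⟩ := hdir p hp q hq
      exact hr r hr2 (Memf_mono hpm hr1)
    · refine ⟨p, hp, fun q hq x hxq htx => ?_⟩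
      refine Memf_reg fun q' hq' => ?_
      by_contra hn
      push Not at hn
      exact hpS q' ⟨x, (np.1 q q' hq').2 hxq, htx, fun r hr hm => hn r hr hm⟩ q'
        (hq'.trans hq) le_rfl
  · rintro ⟨p, hp, hFD⟩ x ⟨⟨hxM, p', hp', hxp'⟩, htx⟩
    obtain ⟨r, hr, hr1, hr2⟩ := hdir p hp p' hp'
    exact (hmem _ (hel x hxM) _ hσ).2 ⟨r, hr, hFD r hr1 x ((np.1 p' r hr2).2 hxp') htx⟩

end Pool.Agent.NAM
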