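import Pool.Agent.Lib.MP_0d2ecd_gt.Mod.Stm

set_option autoImplicit false

/-!
# MP_0d2ecd_gt : the theorem
-/

open scoped Ordinal Cardinal

namespace Pool.Agent.NAM

open Pool.Agent.Lib.MP_0d2ecd_gt (W2 D)
open Pool.Agent.CR (V Nm nat natN Memf Eqf IsTransModelZFC)
open Pool.Agent.FW (Ev ev_cnt ev_zfc)

/-- the trivial condition -/
private def fi_one (w : W2) : Cn where
  top := w
  r := fun γ => ⟨γ, fun _ => false, fun _ _ => rfl⟩
  len := fun _ => rfl
  coh := fun γ δ _ _ => by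
    have : D δ (fun _ : W2 => false) (fun _ : W2 => false) = ∅ := by
      ext ξ
      simp [D]
    change (D δ (fun _ : W2 => false) (fun _ : W2 => false)).Finite
    rw [this]
    exact Set.finite_empty

private theorem fi_w2 : Nonempty W2 := by
  rw [Ordinal.nonempty_toType_iff]
  exact (Ordinal.omega_pos _).ne'

theorem p_FI (xn : S_XN) (bm : S_BM) (tp : S_TP) (t1 : S_T1) (no : S_NO) (pe : S_PE)
    (nc : S_NC) : S_FI := by
  obtain ⟨w⟩ := fi_w2
  obtain ⟨M, G, -, -, h1, h2, h3, h4, h5, h6, h7, h8, h9⟩ :=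
    ((ev_cnt (π := pp)).and ((ev_zfc (π := pp)).and (Ev.and xn (Ev.and bm (Ev.and tp
      (Ev.and t1 (Ev.and no (Ev.and pe nc)))))))).exists ∅ Set.countable_empty (fi_one w)
  refine ⟨pp.N M G, Set.Countable.image ?_ _, h2, fun hQ => ?_⟩
  · refine h1.preimage_of_injOn fun x _ y _ h => ?_
    have h : Ob.nm x = Ob.nm y := h
    simpa using h
  · exact h9 (hQ (Av M G) h3.1 (TT M G) h5 ⟨h6, h7, h8⟩ ⟨BB M G, h4.1, h4.2.2.1, h4.2.2.2⟩)

end Pool.Agent.NAM
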