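import Pool.Agent.Lib.MP_0d2ecd_gt.Mod.Stm

set_option autoImplicit false

/-!
# MP_0d2ecd_gt, [FL] : one step, an extension of a modification of the top node (helper87)
-/

namespace Pool.Agent.NAM

open Pool.Agent.Lib.MP_0d2ecd_gt (W2 D D_symm D_tri D_mono D_congr exists_gt_W2)

private theorem fl_self (β : W2) (s : W2 → Bool) : (D β s s).Finite := by
  have : D β s s = ∅ := by
    ext ξ
    exact ⟨fun h => absurd rfl h.2, fun h => absurd h (Set.notMem_empty _)⟩
  rw [this]
  exact Set.finite_empty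

private theorem fl_tri {β : W2} {s t r : W2 → Bool} (h1 : (D β s t).Finite)
    (h2 : (D β t r).Finite) : (D β s r).Finite := (h1.union h2).subset (D_tri β s t r)

private theorem fl_symm {β : W2} {s t : W2 → Bool} (h1 : (D β s t).Finite) :
    (D β t s).Finite := by
  rwa [D_symm]

private theorem fl_succ (a : W2) : ∃ b : W2, a < b ∧ ∀ γ < b, γ ≤ a := by
  have hne : {b : W2 | a < b}.Nonempty := exists_gt_W2 a
  refine ⟨(IsWellFounded.wf (r := ((· < ·) : W2 → W2 → Prop))).min _ hne,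
    WellFounded.min_mem _ _ hne, fun γ hγ => ?_⟩
  by_contra hcon
  exact WellFounded.not_lt_min _ (s := {b : W2 | a < b}) (not_le.1 hcon) hγ

/-- the new top function -/
private noncomputable def flG (a c d : W2) (x y z : W2 → Bool) : W2 → Bool := fun ξ =>
  if ξ < a then x ξ else if ξ < c then y ξ else if ξ < d then z ξ else false

private theorem fl_fin {a c d : W2} {x y z : W2 → Bool} (h1 : (D a x z).Finite)
    (h2 : (D c y z).Finite) : (D d (flG a c d x y z) z).Finite := by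
  refine (h1.union h2).subset ?_
  rintro ξ ⟨hξ, hne⟩
  unfold flG at hne
  by_cases ha : ξ < a
  · rw [if_pos ha] at hne
    exact Or.inl ⟨ha, hne⟩
  · rw [if_neg ha] at hne
    by_cases hc : ξ < c
    · rw [if_pos hc] at hne
      exact Or.inr ⟨hc, hne⟩
    · rw [if_neg hc, if_pos hξ] at hne
      exact absurd rfl hne

theorem p_FL : S_FL := by
  intro p r s t hrp hs hsl ht hst
  obtain ⟨hrp1, hrp2⟩ := hrp
  obtain ⟨ht1, ht2⟩ := ht
  obtain ⟨hst1, hst2⟩ := hst
  obtain ⟨b, hb1, hb2⟩ := fl_succ r.top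
  have hpt : p.top ≤ t.len := hsl ▸ hst1
  have h1 : (D p.top p.tp.f r.tp.f).Finite := by
    have h := r.coh r.top p.top hrp1 le_rfl
    rw [hrp2 p.top le_rfl] at h
    exact fl_symm h
  have h2 : (D t.len t.f r.tp.f).Finite := fl_tri ht2 (fl_symm (r.coh r.top t.len ht1 le_rfl))
  have hg := fl_fin (d := r.top) h1 h2
  let g : W2 → Bool := flG p.top t.len r.top p.tp.f t.f r.tp.f
  let nb : Nd := ⟨b, g, fun ξ hξ => by
    have h0 : r.top ≤ ξ := hb1.le.trans hξ
    change flG p.top t.len r.top p.tp.f t.f r.tp.f ξ = false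
    unfold flG
    rw [if_neg (not_lt.2 ((hpt.trans ht1).trans h0)), if_neg (not_lt.2 (ht1.trans h0)),
      if_neg (not_lt.2 h0)]⟩
  let w : W2 → Nd := fun γ => if γ ≤ r.top then r.r γ else if γ = b then nb else
    ⟨γ, fun _ => false, fun _ _ => rfl⟩
  have hw1 : ∀ γ, γ ≤ r.top → w γ = r.r γ := fun γ hγ => if_pos hγ
  have hwb : w b = nb := by
    change (if b ≤ r.top then _ else _) = _
    rw [if_neg (not_le.2 hb1), if_pos rfl]
  have htop : ∀ γ, ¬ γ ≤ r.top → γ ≤ b → γ = b := by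
    intro γ hγ hγb
    rcases hγb.lt_or_eq with h | h
    · exact absurd (hb2 γ h) hγ
    · exact h
  let q : Cn := ⟨b, w, by
    intro γ
    by_cases hγ : γ ≤ r.top
    · rw [hw1 γ hγ]
      exact r.len γ
    · by_cases hγb : γ = b
      · rw [hγb, hwb]
      · change (if γ ≤ r.top then _ else _ : Nd).len = γ
        rw [if_neg hγ, if_neg hγb], by
    intro γ δ hδ hγb
    by_cases hγ : γ ≤ r.top
    · rw [hw1 γ hγ, hw1 δ (hδ.trans hγ)]
      exact r.coh γ δ hδ hγ
    · obtain rfl := htop γ hγ hγb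
      by_cases hδr : δ ≤ r.top
      · rw [hwb, hw1 δ hδr]
        exact fl_tri (hg.subset (D_mono hδr _ _)) (r.coh r.top δ hδr le_rfl)
      · obtain rfl := htop δ hδr hδ
        exact fl_self _ _⟩
  have hqtp : q.tp = nb := hwb
  have hqr : q ≤ r := ⟨hb1.le, hw1⟩
  refine ⟨q, hqr, ⟨le_trans hqr ⟨hrp1, hrp2⟩, ?_⟩, hb1, ?_⟩
  · intro ξ hξ
    rw [hqtp]
    exact if_pos hξ
  · intro u hu hus huq
    refine ⟨(ht1.trans hb1.le).trans hu.ge, fun ξ hξ => ?_⟩
    by_cases hξp : ξ < p.top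
    · rw [hus ξ hξp]
      exact (hst2 ξ (hsl ▸ hξp)).symm
    · rw [huq ξ (not_lt.1 hξp) ((hξ.trans_le ht1).trans hb1), hqtp]
      change flG p.top t.len r.top p.tp.f t.f r.tp.f ξ = t.f ξ
      unfold flG
      rw [if_neg hξp, if_pos hξ]

end Pool.Agent.NAM
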