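import Pool.Agent.Lib.MP_0d2ecd_gt.Mod.Stm

set_option autoImplicit false

/-!
# MP_0d2ecd_gt : points above nodes in the generic tree
-/

open scoped Ordinal Cardinal

namespace Pool.Agent.NAM

open Pool.Agent.Lib.MP_0d2ecd_gt (W2 D)
open Pool.Agent.CR (V Nm nat natN Memf Eqf IsTransModelZFC)
open Pool.Agent.FW

private theorem g6_a (np : S_NP) (p6 : S_P6) :
    Ev pp (fun M G => ∀ s ∈ TG M G, (BG M G s).Nonempty) := by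
  refine ((ev_below (π := pp) fun l => {q : Cn | ∃ s, l = [Ob.nd s] ∧ ∃ x ∈ q.P, s.Ec x}).and
    ((ev_rel (π := pp) fun l y => ∃ q s x, l = [Ob.cn q, Ob.nd s] ∧ y = Ob.nd x ∧ x ∈ q.P ∧
      s.Ec x).and ev_sub)).mono ?_
  rintro M G ⟨h1, h2, h3⟩ s ⟨hs, p, hp, hsp⟩
  obtain ⟨q, hq, -, s', he, x, hx, hsx⟩ := h1 [Ob.nd s] (by simp [hs]) p hp (by
    intro q hq
    obtain ⟨r, hr, x, hx, hsx⟩ := p6 q s ((np.1 p q hq).1 hsp)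
    exact ⟨r, hr, s, rfl, x, hx, hsx⟩)
  obtain rfl : s = s' := by simpa using he
  have hqM : Ob.cn q ∈ M := h3 hq
  obtain ⟨y, hy, q', s', x', he, rfl, hx', hsx'⟩ := h2 [Ob.cn q, Ob.nd s] (by simp [hs, hqM])
    ⟨Ob.nd x, q, s, x, rfl, rfl, hx, hsx⟩
  obtain ⟨rfl, rfl⟩ : q = q' ∧ s = s' := by simpa using he
  exact ⟨x', ⟨hy, q, hq, hx'⟩, hsx'⟩

private theorem g6_b (np : S_NP) (p7 : S_P7) :
    Ev pp (fun M G => ∀ s ∈ TG M G, ∀ t ∈ TG M G, t.Ec s →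
      ∃ x ∈ BG M G t, x ∉ BG M G s) := by
  refine ((ev_below (π := pp) fun l => {q : Cn | ∃ s t, l = [Ob.nd s, Ob.nd t] ∧
      ∃ x ∈ q.P, t.Ec x ∧ ¬ s.Ec x}).and
    ((ev_rel (π := pp) fun l y => ∃ q s t x, l = [Ob.cn q, Ob.nd s, Ob.nd t] ∧ y = Ob.nd x ∧
      x ∈ q.P ∧ t.Ec x ∧ ¬ s.Ec x).and (ev_sub.and ev_dir))).mono ?_
  rintro M G ⟨h1, h2, h3, h4⟩ s ⟨hs, p, hp, hsp⟩ t ⟨ht, p', hp', htp⟩ hts
  obtain ⟨p0, hp0, h5, h6⟩ := h4 p hp p' hp'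
  obtain ⟨q, hq, -, s', t', he, x, hx, htx, hsx⟩ := h1 [Ob.nd s, Ob.nd t] (by simp [hs, ht])
    p0 hp0 (by
    intro q hq
    obtain ⟨r, hr, x, hx, htx, hsx⟩ := p7 q s t ((np.1 p q (hq.trans h5)).1 hsp)
      ((np.1 p' q (hq.trans h6)).1 htp) hts
    exact ⟨r, hr, s, t, rfl, x, hx, htx, hsx⟩)
  obtain ⟨rfl, rfl⟩ : s = s' ∧ t = t' := by simpa using he
  have hqM : Ob.cn q ∈ M := h3 hq
  obtain ⟨y, hy, q', s', t', x', he, rfl, hx', htx', hsx'⟩ := h2 [Ob.cn q, Ob.nd s, Ob.nd t]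
    (by simp [hs, ht, hqM]) ⟨Ob.nd x, q, s, t, x, rfl, rfl, hx, htx, hsx⟩
  obtain ⟨rfl, rfl, rfl⟩ : q = q' ∧ s = s' ∧ t = t' := by simpa using he
  exact ⟨x', ⟨⟨hy, q, hq, hx'⟩, htx'⟩, fun h => hsx' h.2⟩

theorem p_G6 (np : S_NP) (p6 : S_P6) (p7 : S_P7) : S_G6 :=
  (g6_a np p6).and (g6_b np p7)

end Pool.Agent.NAM
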