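import Pool.Agent.Lib.MP_0d2ecd_gt.Mod.Stm

set_option autoImplicit false

/-!
# MP_0d2ecd_gt : sequences of choices are decided
-/

open scoped Ordinal Cardinal

namespace Pool.Agent.NAM

open Pool.Agent.Lib.MP_0d2ecd_gt (W2 D)
open Pool.Agent.CR (V Nm nat natN Memf Eqf IsTransModelZFC)
open Pool.Agent.FW (Ev)

private theorem ge_card : #ℕ ≤ ℵ_ 1 := by
  rw [Cardinal.mk_nat]
  exact Cardinal.aleph0_le_aleph 1

private theorem ge_dense (gn : S_GN) (R : List Ob → ℕ → Ob → Cn → Prop)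
    (hR : ∀ l n x p q, q ≤ p → R l n x p → R l n x q) (l : List Ob) (p : Cn) :
    ∃ q ≤ p, q ∈ {q : Cn | (∃ F : ℕ → Ob, ∀ n, R l n (F n) q) ∨
      ∃ n, ∀ x, ∀ r ≤ q, ¬ R l n x r} := by
  by_cases h : ∃ n, ∃ q ≤ p, ∀ x, ∀ r ≤ q, ¬ R l n x r
  · obtain ⟨n, q, hq, hn⟩ := h
    exact ⟨q, hq, Or.inr ⟨n, hn⟩⟩
  · have h' : ∀ n, ∀ q ≤ p, ∃ r ≤ q, ∃ x, R l n x r := by
      intro n q hq
      by_contra hc
      apply h
      exact ⟨n, q, hq, fun x r hr hx => hc ⟨r, hr, x, hx⟩⟩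
    obtain ⟨q, hq, F, hF⟩ := gn ℕ Ob (R l) ge_card (fun n x p q => hR l n x p q) p h'
    exact ⟨q, hq.1, Or.inl ⟨F, hF⟩⟩

theorem p_GE (e1 : S_E1) (gn : S_GN) : S_GE := by
  have _ := e1
  intro R hR
  refine ((FW.ev_dense (π := pp) (fun l => {q : Cn | (∃ F : ℕ → Ob, ∀ n, R l n (F n) q) ∨
      ∃ n, ∀ x, ∀ r ≤ q, ¬ R l n x r})).and (FW.ev_dir.and (FW.ev_sub.and
      (FW.ev_rel (fun l y => ∃ (s : Cn) (F : ℕ → Ob), l.head? = some (Ob.cn s) ∧ y = Ob.sq F ∧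
        ∀ n, R l.tail n (F n) s))))).mono ?_
  rintro M G ⟨h1, h2, h3, h4⟩ l hl hx
  obtain ⟨s, hs, hs'⟩ := h1 l hl (ge_dense gn R hR l)
  rcases hs' with ⟨F, hF⟩ | ⟨n, hn⟩
  · obtain ⟨y, hy, s', F', e1, e2, e3⟩ := h4 (Ob.cn s :: l) (by
      intro x hx
      rcases List.mem_cons.1 hx with rfl | hx
      · exact h3 hs
      · exact hl x hx) ⟨Ob.sq F, s, F, rfl, rfl, hF⟩
    have e4 : s = s' := by simpa using e1
    subst e4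
    subst e2
    exact ⟨F', hy, s, hs, e3⟩
  · obtain ⟨x, p, hp, hxp⟩ := hx n
    obtain ⟨r, hr, hr1, hr2⟩ := h2 s hs p hp
    exact absurd (hR _ _ _ _ _ hr2 hxp) (hn x r hr1)

end Pool.Agent.NAM
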