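import Pool.Agent.Lib.MP_0d2ecd_gt.Mod.Stm

set_option autoImplicit false

/-!
# MP_0d2ecd_gt : generic facts
-/

open scoped Ordinal Cardinal

namespace Pool.Agent.NAM

open Pool.Agent.Lib.MP_0d2ecd_gt (W2 D)
open Pool.Agent.CR (V Nm)
open Pool.Agent.FW (Ev ev_rel ev_fun ev_dense ev_dir ev_sub)

theorem p_GF (e1 : S_E1) (np : S_NP) : S_GF := by
  obtain ⟨n1, n2, _, n4, n5, n6, _⟩ := np
  refine (ev_dir.and ((ev_dense (π := pp) (fun l => match l with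
      | [.od α] => {p | α < p.top}
      | _ => ∅)).and ((ev_fun (π := pp) (fun l => match l with
      | [.nd s, .od γ] => .nd (s.res γ)
      | _ => .nm Nm.emp)).and ((ev_fun (π := pp) (fun l => match l with
      | [.nd s] => .od s.len
      | _ => .nm Nm.emp)).and ((ev_fun (π := pp) (fun l => match l with
      | [.cn p, .od γ] => .nd (p.r γ)
      | _ => .nm Nm.emp)).and ((ev_fun (π := pp) (fun l => match l with
      | [.cn p] => .od p.top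
      | _ => .nm Nm.emp)).and ((ev_rel (π := pp) (fun l y => ∃ x γ δ,
        l = [Ob.nd x, Ob.od γ] ∧ y = .od δ ∧ γ < δ ∧ δ < x.len)).and
      (ev_rel (π := pp) (fun l y => ∃ x γ, l = [Ob.nd x] ∧ y = .od γ ∧ γ < x.len))))))))).mono ?_
  rintro M G ⟨h1, h2, h3, h4, h5, h6, h7, h8⟩
  have k5 : ∀ s γ, Ob.nd s ∈ M → Ob.od γ ∈ M → Ob.nd (s.res γ) ∈ M := by
    intro s γ hs hγ
    exact h3 [.nd s, .od γ] (by simp [hs, hγ])
  refine ⟨fun p hp => ⟨?_, ?_⟩, fun p hp s hs hsp => ⟨hs, p, hp, hsp⟩,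
    fun p hp x hx hxp => ⟨hx, p, hp, hxp⟩, fun α hα => ?_, k5, fun s hs => ?_,
    fun p γ hp hγ => ?_, fun p hp => ?_, ?_, ?_, ?_⟩
  · rintro s ⟨_, q, hq, hsq⟩ hl
    obtain ⟨r, _, hr1, hr2⟩ := h1 p hp q hq
    exact (n2 p r hr1).1 s ((n1 q r hr2).1 hsq) hl
  · rintro x ⟨_, q, hq, hxq⟩ hl
    obtain ⟨r, _, hr1, hr2⟩ := h1 p hp q hq
    exact (n2 p r hr1).2 x ((n1 q r hr2).2 hxq) hl
  · exact h2 [.od α] (by simpa using hα) fun p => by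
      obtain ⟨q, hq, hq1, _⟩ := e1.2.2.2 p α
      exact ⟨q, hq.1, hq1⟩
  · exact h4 [.nd s] (by simpa using hs)
  · exact h5 [.cn p, .od γ] (by simp [hp, hγ])
  · exact h6 [.cn p] (by simpa using hp)
  · rintro x ⟨hx, p, hp, hxp⟩ γ hγ hlt
    exact ⟨k5 x γ hx hγ, p, hp, (n4 p x γ hxp hlt).1⟩
  · rintro x ⟨hx, p, hp, hxp⟩ γ hγ hlt
    obtain ⟨δ, hδ1, hδ2⟩ := n5 p x γ hxp hlt
    obtain ⟨_, hy, x', γ', δ', h9, rfl, h10, h11⟩ := h7 [.nd x, .od γ] (by simp [hx, hγ])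
      ⟨.od δ, x, γ, δ, rfl, rfl, hδ1, hδ2⟩
    simp only [List.cons.injEq, Ob.nd.injEq, Ob.od.injEq, and_true] at h9
    obtain ⟨rfl, rfl⟩ := h9
    exact ⟨δ', hy, h10, h11⟩
  · rintro x ⟨hx, p, hp, hxp⟩
    obtain ⟨γ, hγ⟩ := n6 p x hxp
    obtain ⟨_, hy, x', γ', h9, rfl, h10⟩ := h8 [.nd x] (by simpa using hx)
      ⟨.od γ, x, γ, rfl, rfl, hγ⟩
    simp only [List.cons.injEq, Ob.nd.injEq, and_true] at h9
    subst h9
    exact ⟨γ', hy, h10⟩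

end Pool.Agent.NAM
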