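import Pool.Agent.Lib.MP_0d2ecd_gt.Mod.Stm

set_option autoImplicit false

/-!
# MP_0d2ecd_gt, piece GN (helper75)
-/

namespace Pool.Agent.NAM

theorem p_GN (e1 : S_E1) (al : S_AL) : S_GN := by
  intro A β R hA hR p hd
  have h1 : ∀ a q, Ee q p → ∃ r, Ee r q ∧ r ∈ {q | ∃ x, R a x q} := by
    intro a q hq
    obtain ⟨r, hr, x, hx⟩ := hd a q hq.1
    obtain ⟨q', hq', hE⟩ := e1.2.2.1 q r hr
    exact ⟨q', hE, x, hR a x r q' hq' hx⟩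
  have h2 : ∀ a q r, q ∈ {q | ∃ x, R a x q} → Ee r q → r ∈ {q | ∃ x, R a x q} := by
    rintro a q r ⟨x, hx⟩ hr
    exact ⟨x, hR a x q r hr.1 hx⟩
  obtain ⟨q, hq, h⟩ := al p A (fun a => {q | ∃ x, R a x q}) hA h1 h2
  choose F hF using h
  exact ⟨q, hq, F, hF⟩

end Pool.Agent.NAM
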