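import Pool.Agent.Lib.MP_0d2ecd_gt.Mod.Stm

set_option autoImplicit false

/-!
# MP_0d2ecd_gt : the codes are injective
-/

namespace Pool.Agent.NAM

open Pool.Agent.CR (V nat)

private theorem ij_mem_of_lt {m n : ℕ} (h : m < n) : nat m ∈ nat n := by
  induction n with
  | zero => exact absurd h (Nat.not_lt_zero m)
  | succ n ih =>
    change nat m ∈ insert (nat n) (nat n)
    rw [ZFSet.mem_insert_iff]
    rcases Nat.lt_succ_iff_lt_or_eq.1 h with h | h
    · exact Or.inr (ih h)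
    · exact Or.inl (by rw [h])

private theorem ij_nat {m n : ℕ} (h : nat m = nat n) : m = n := by
  rcases lt_trichotomy m n with h1 | h1 | h1
  · have h2 := ij_mem_of_lt h1
    rw [h] at h2
    exact absurd h2 (ZFSet.mem_irrefl _)
  · exact h1
  · have h2 := ij_mem_of_lt h1
    rw [h] at h2
    exact absurd h2 (ZFSet.mem_irrefl _)

private theorem ij_mem_cs {A : V} (O : Set (El A)) (z : V) : z ∈ cs O ↔ ∃ h : z ∈ A, ⟨z, h⟩ ∈ O := by
  unfold cs
  rw [ZFSet.mem_sep]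
  constructor
  · rintro ⟨_, h⟩
    exact h
  · rintro ⟨h, h'⟩
    exact ⟨h, h, h'⟩

private theorem ij_cs {A : V} (O O' : Set (El A)) (h : cs O = cs O') : O = O' := by
  ext ⟨z, hz⟩
  have h1 := ij_mem_cs O z
  have h2 := ij_mem_cs O' z
  rw [h] at h1
  constructor
  · intro h3
    obtain ⟨_, h4⟩ := h2.1 (h1.2 ⟨hz, h3⟩)
    exact h4
  · intro h3
    obtain ⟨_, h4⟩ := h1.1 (h2.2 ⟨hz, h3⟩)
    exact h4

private theorem ij_mem_fam {A : V} (F : Set (Set (El A))) (z : V) :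
    z ∈ fam F ↔ ∃ O ∈ F, z = cs O := by
  unfold fam
  rw [ZFSet.mem_sep]
  constructor
  · rintro ⟨_, O, hO, h⟩
    exact ⟨O, hO, h.symm⟩
  · rintro ⟨O, hO, rfl⟩
    refine ⟨?_, O, hO, rfl⟩
    rw [ZFSet.mem_powerset]
    intro y hy
    obtain ⟨h, _⟩ := (ij_mem_cs O y).1 hy
    exact h

theorem p_IJ : S_IJ := by
  refine ⟨fun _ _ => ij_nat, fun _ => ij_cs, fun _ => ij_mem_cs, ?_, fun _ => ij_mem_fam, ?_⟩
  · intro A F O
    rw [ij_mem_fam]
    constructor
    · rintro ⟨O', h1, h2⟩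
      rwa [ij_cs _ _ h2]
    · intro h
      exact ⟨O, h, rfl⟩
  · intro A W n O
    unfold seqS
    rw [ZFSet.mem_range]
    constructor
    · rintro ⟨m, h⟩
      obtain ⟨h1, h2⟩ := ZFSet.pair_inj.1 h
      rw [← ij_nat h1]
      exact (ij_cs _ _ h2).symm
    · rintro rfl
      exact ⟨n, rfl⟩

end Pool.Agent.NAM
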