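import Pool.Agent.Lib.MP_0d2ecd_gt.Mod.Stm

set_option autoImplicit false

open scoped Ordinal Cardinal

namespace Pool.Agent.NAM

open Pool.Agent.Lib.MP_0d2ecd_gt (W2 D D_congr exists_gt_of_mk_le)

private theorem lb_r {J : Type} [LinearOrder J] {f : J → Cn}
    (hf : ∀ i j, i ≤ j → Ee (f j) (f i)) {i j : J} {γ : W2} (hi : γ ≤ (f i).top)
    (hj : γ ≤ (f j).top) : (f i).r γ = (f j).r γ := by
  rcases le_total i j with h | h
  · exact ((hf i j h).1.2 γ hi).symm
  · exact (hf j i h).1.2 γ hj

private theorem lb_f {J : Type} [LinearOrder J] {f : J → Cn}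
    (hf : ∀ i j, i ≤ j → Ee (f j) (f i)) {i j : J} {ξ : W2} (hi : ξ < (f i).top)
    (hj : ξ < (f j).top) : (f i).tp.f ξ = (f j).tp.f ξ := by
  rcases le_total i j with h | h
  · exact ((hf i j h).2 ξ hi).symm
  · exact (hf j i h).2 ξ hj

theorem p_LB : S_LB := by
  classical
  intro J _ _ f hJ hf
  by_cases hmax : ∃ j, ∀ i, (f i).top ≤ (f j).top
  · obtain ⟨j, hj⟩ := hmax
    refine ⟨f j, fun i => ?_, fun ξ hξ => ⟨j, hξ⟩⟩
    rcases le_total i j with h | h
    · exact hf i j h
    · have h1 := hf j i h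
      have h2 : (f i).top = (f j).top := le_antisymm (hj i) h1.1.1
      refine ⟨⟨h2.le, fun γ hγ => ?_⟩, fun ξ hξ => ?_⟩
      · exact (h1.1.2 γ (h2 ▸ hγ)).symm
      · exact (h1.2 ξ (h2 ▸ hξ)).symm
  · have hmax' : ∀ i, ∃ j, (f i).top < (f j).top := by
      intro i
      by_contra hc
      exact hmax ⟨i, fun j => not_lt.1 fun hlt => hc ⟨j, hlt⟩⟩
    have hne : {b : W2 | ∀ j, (f j).top < b}.Nonempty := by
      obtain ⟨b, hb⟩ := exists_gt_of_mk_le (s := Set.range fun j => (f j).top)
        (Cardinal.mk_range_le.trans hJ)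
      exact ⟨b, fun j => hb _ ⟨j, rfl⟩⟩
    set b : W2 := (wellFounded_lt (α := W2)).min _ hne with hbdef
    have hb1 : ∀ j, (f j).top < b := (wellFounded_lt (α := W2)).min_mem _ hne
    have hb2 : ∀ ξ, ∃ j, ξ < b → ξ < (f j).top := by
      intro ξ
      by_cases hξ : ξ < b
      · have h1 : ¬ ∀ j, (f j).top < ξ := fun h =>
          (wellFounded_lt (α := W2)).not_lt_min _ (show ξ ∈ {b : W2 | ∀ j, (f j).top < b} from h)
            hξ
        rw [not_forall] at h1
        obtain ⟨i, hi⟩ := h1
        obtain ⟨j, hj⟩ := hmax' i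
        exact ⟨j, fun _ => lt_of_le_of_lt (not_lt.1 hi) hj⟩
      · exact ⟨Classical.arbitrary J, fun h => absurd h hξ⟩
    choose J0 hJ0 using hb2
    set g : W2 → Bool := fun ξ => if ξ < b then (f (J0 ξ)).tp.f ξ else false with hg
    have hgf : ∀ j ξ, ξ < (f j).top → g ξ = (f j).tp.f ξ := by
      intro j ξ hξ
      have hξb : ξ < b := hξ.trans (hb1 j)
      rw [hg]
      simp only [if_pos hξb]
      exact lb_f hf (hJ0 ξ hξb) hξ
    set R : W2 → Nd := fun γ => if γ < b then (f (J0 γ)).r γ else
      ⟨γ, fun ξ => if γ = b then g ξ else false, fun ξ hξ => by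
        by_cases h : γ = b
        · rw [if_pos h, hg]
          exact if_neg (not_lt.2 (h ▸ hξ))
        · rw [if_neg h]⟩ with hR
    have hRlt : ∀ j γ, γ ≤ (f j).top → R γ = (f j).r γ := by
      intro j γ hγ
      have hγb : γ < b := lt_of_le_of_lt hγ (hb1 j)
      rw [hR]
      simp only [if_pos hγb]
      exact lb_r hf (hJ0 γ hγb).le hγ
    have hRb : (R b).f = g := by
      rw [hR]
      simp only [lt_irrefl, if_false]
      funext ξ
      simp
    let q : Cn :=
      { top := b
        r := R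
        len := by
          intro γ
          rw [hR]
          by_cases h : γ < b
          · simp only [if_pos h]
            exact (f (J0 γ)).len γ
          · simp only [if_neg h]
        coh := by
          intro γ δ hδγ hγ
          rcases lt_or_eq_of_le hγ with hγ | rfl
          · have h1 : γ ≤ (f (J0 γ)).top := (hJ0 γ hγ).le
            rw [hRlt (J0 γ) γ h1, hRlt (J0 γ) δ (hδγ.trans h1)]
            exact (f (J0 γ)).coh γ δ hδγ h1
          · rcases lt_or_eq_of_le hδγ with hδ | hδ
            · have h1 : δ < (f (J0 δ)).top := hJ0 δ hδ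
              rw [hRb, hRlt (J0 δ) δ h1.le, D_congr _ (fun ξ hξ => hgf (J0 δ) ξ (hξ.trans h1))]
              exact (f (J0 δ)).coh _ δ h1.le le_rfl
            · rw [hδ]
              have : D b (R b).f (R b).f = ∅ := by
                ext ξ
                constructor
                · rintro ⟨_, h⟩
                  exact absurd rfl h
                · intro h
                  exact absurd h (Set.notMem_empty _)
              rw [this]
              exact Set.finite_empty }
    refine ⟨q, fun j => ⟨⟨(hb1 j).le, fun γ hγ => hRlt j γ hγ⟩, fun ξ hξ => ?_⟩,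
      fun ξ hξ => ⟨J0 ξ, hJ0 ξ hξ⟩⟩
    show (R b).f ξ = _
    rw [hRb]
    exact hgf j ξ hξ

end Pool.Agent.NAM
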