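import Pool.Agent.Lib.MP_0d2ecd_gt.Mod.Stm

set_option autoImplicit false

/-!
# MP_0d2ecd_gt : there is no point-countable base
-/

open scoped Ordinal Cardinal

namespace Pool.Agent.NAM

open Pool.Agent.Lib.MP_0d2ecd_gt (W2 D)
open Pool.Agent.CR (V Nm nat natN Memf Eqf IsTransModelZFC)
open Pool.Agent.FW (Ev ev_fun ev_mem ev_sub)

/-- the names given by a sequence of length `ω₁` -/
private def nc_a (l : List Ob) (i : W1) : Nm Cn := match l with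
  | [.f1 F] => Ob.un (F i)
  | _ => Nm.emp

/-- the value of a sequence of length `ω₁` -/
private def nc_f (l : List Ob) : Ob := match l with
  | [.f1 F, .w1 i] => F i
  | _ => .no

private theorem nc_ex_ec {s t x : Nd} (h : s.Ex t) (h' : t.Ec x) : s.Ec x :=
  ⟨lt_of_le_of_lt h.1 h'.1, fun ξ hξ => (h'.2 ξ (lt_of_lt_of_le hξ h.1)).trans (h.2 ξ hξ)⟩

theorem p_NC (xn : S_XN) (el : S_EL) (gf : S_GF) (g6 : S_G6) (fd : S_FD) (fu : S_FU) (ij : S_IJ)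
    (sq : S_SQ) (fc : S_FC) (np : S_NP) : S_NC := by
  clear el
  refine ((Ev.and xn gf).and ((Ev.and g6 (Ev.and fd fu)).and ((ev_mem.and ev_sub).and
    ((Ev.and (sq nc_a) fc).and (ev_fun (π := pp) nc_f))))).mono ?_
  rintro M G ⟨⟨hxn, hgf⟩, ⟨hg6, hfd, hfu⟩, ⟨hmem, hsub⟩, ⟨hsq, hfc⟩, hfun⟩ ⟨B, hB1, hB2, hB3⟩
  obtain ⟨-, -, -, -, -, -, hgr, hgt, -⟩ := hgf
  obtain ⟨-, -, hcs, -, hfam, hseq⟩ := ij
  obtain ⟨ν, hν, hνe⟩ := hB1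
  have hνe : pp.vl M G ν = fam B := hνe
  obtain ⟨q, hq, s, t, σ, hs, ht, hσ, hall⟩ := hfc ν hν B hνe hB2
  have hqM : Ob.cn q ∈ M := hsub hq
  have hval : ∀ F : W1 → Ob, Ob.f1 F ∈ M → ∀ i, Ob.w1 i ∈ M → F i ∈ M := by
    intro F hF i hi
    exact hfun [.f1 F, .w1 i] (by simp [hF, hi])
  have hsT : ∀ i, Ob.w1 i ∈ M → s i ∈ TG M G := fun i hi =>
    ⟨hval _ hs i hi, q, hq, (hall i).1⟩
  have htT : ∀ i, Ob.w1 i ∈ M → t i ∈ TG M G := fun i hi =>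
    ⟨hval _ ht i hi, q, hq, (hall i).2.1⟩
  have hσH : ∀ i, Ob.w1 i ∈ M → σ i ∈ pp.H M := fun i hi => hval _ hσ i hi
  -- the top node and a point above it
  have htp : q.tp ∈ TG M G :=
    ⟨hgr q q.top hqM (hgt q hqM), q, hq, np.2.2.2.2.2.2 q⟩
  obtain ⟨x, hx, hxq⟩ := hg6.1 _ htp
  have hzA : pp.vl M G (elN x) ∈ Av M G := (hxn.2.1 _).2 ⟨x, hx, rfl⟩
  obtain ⟨W, hWN, hW⟩ := hB3 ⟨pp.vl M G (elN x), hzA⟩
  -- the sets
  have hU : ∀ i, Ob.w1 i ∈ M → ∃ U ∈ B, pp.vl M G (σ i) = cs U := by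
    intro i hi
    have h1 : pp.vl M G (σ i) ∈ pp.vl M G ν :=
      (hmem _ (hσH i hi) _ hν).2 ⟨q, hq, (hall i).2.2.2.2.1⟩
    rw [hνe] at h1
    exact (hfam _ B _).1 h1
  have hlow : ∀ i, Ob.w1 i ∈ M → ∀ y ∈ BG M G (t i), pp.vl M G (elN y) ∈ pp.vl M G (σ i) :=
    fun i hi => (hfd _ (hσH i hi) _ (htT i hi)).2 ⟨q, hq, (hall i).2.2.2.2.2.1⟩
  have hup : ∀ i, Ob.w1 i ∈ M → ∀ y ∈ PG M G, pp.vl M G (elN y) ∈ pp.vl M G (σ i) →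
      (s i).Ec y :=
    fun i hi => (hfu _ (hσH i hi) _ (hsT i hi)).2 ⟨q, hq, (hall i).2.2.2.2.2.2.1⟩
  have hlt : ∀ i j, Ob.w1 i ∈ M → Ob.w1 j ∈ M → i < j →
      pp.vl M G (σ i) = pp.vl M G (σ j) → False := by
    intro i j hi hj hij he
    obtain ⟨y, hy1, hy2⟩ := hg6.2 _ (hsT j hj) _ (htT i hi) ((hall i).2.2.2.2.2.2.2 j hij)
    refine hy2 ⟨hy1.1, hup j hj y hy1.1 ?_⟩
    rw [← he]
    exact hlow i hi y hy1
  have hpair : ∀ i, Ob.w1 i ∈ M → ∀ n : ℕ, ZFSet.pair (nat n) (pp.vl M G (σ i)) ∈ seqS W →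
      pp.vl M G (σ i) = cs (W n) := by
    intro i hi n h
    obtain ⟨U, -, hUe⟩ := hU i hi
    rw [hUe] at h ⊢
    rw [(hseq _ W n U).1 h]
  have hσM : ∀ x ∈ [Ob.f1 (fun i => Ob.nm (σ i))], x ∈ M := by
    intro x hx
    rw [List.mem_singleton.1 hx]
    exact hσ
  refine hsq [Ob.f1 (fun i => Ob.nm (σ i))] hσM (seqS W) hWN ?_ ?_
  · intro i hi
    change ∃ n : ℕ, ZFSet.pair (nat n) (pp.vl M G (σ i)) ∈ seqS W
    obtain ⟨U, hUB, hUe⟩ := hU i hi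
    have h1 : pp.vl M G (elN x) ∈ cs U := by
      rw [← hUe]
      exact hlow i hi x ⟨hx, nc_ex_ec (hall i).2.2.2.1 hxq⟩
    obtain ⟨h2, h3⟩ := (hcs _ U _).1 h1
    obtain ⟨n, hn⟩ := hW (show U ∈ {U ∈ B | (⟨pp.vl M G (elN x), hzA⟩ : El (Av M G)) ∈ U} from
      ⟨hUB, h3⟩)
    refine ⟨n, ?_⟩
    rw [hUe]
    exact (hseq _ W n U).2 hn.symm
  · intro i j hi hj n h1 h2
    have h1 : ZFSet.pair (nat n) (pp.vl M G (σ i)) ∈ seqS W := h1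
    have h2 : ZFSet.pair (nat n) (pp.vl M G (σ j)) ∈ seqS W := h2
    have h3 : pp.vl M G (σ i) = pp.vl M G (σ j) :=
      (hpair i hi n h1).trans (hpair j hj n h2).symm
    rcases lt_trichotomy i j with h | h | h
    · exact (hlt i j hi hj h h3).elim
    · exact h
    · exact (hlt j i hj hi h h3.symm).elim

end Pool.Agent.NAM
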