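import Pool.Agent.Lib.MP_0d2ecd_gt.Mod.Stm

set_option autoImplicit false

/-!
# MP_0d2ecd_gt : the space is normal
-/

open scoped Ordinal Cardinal

namespace Pool.Agent.NAM

open Pool.Agent.CR (V Nm nat natN Memf Memf_mono)
open Pool.Agent.FW (Ev ev_zfc)

theorem no_union (M : Set Ob) (G : Set Cn) (S : Set (Set (El (Av M G)))) (hS : S ⊆ BB M G)
    (hN : cs (⋃₀ S) ∈ pp.N M G) : ⋃₀ S ∈ TT M G := by
  refine ⟨{x | ∃ s ∈ TG M G, im M G (BG M G s) ∈ S ∧ x ∈ BG M G s}, ⟨?_, ?_⟩, ?_, hN⟩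
  · rintro x ⟨s, _, _, hx⟩
    exact hx.1
  · rintro x ⟨s, hs, hsS, hx⟩
    exact ⟨s, hs, hx.2, fun y hy => ⟨s, hs, hsS, hy⟩⟩
  · ext z
    constructor
    · rintro ⟨U, hU, hz⟩
      obtain ⟨s, hs, rfl⟩ := hS hU
      obtain ⟨x, hx, hzx⟩ := hz
      exact ⟨x, ⟨s, hs, hU, hx⟩, hzx⟩
    · rintro ⟨x, ⟨s, hs, hsS, hx⟩, hzx⟩
      exact ⟨_, hsS, x, hx, hzx⟩

private theorem no_disj {A : V} {B : Set (Set (El A))} (hB : RankOne B) (K L : Set (El A)) :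
    Disjoint (⋃₀ {U | U ∈ B ∧ (U ∩ K).Nonempty ∧ Disjoint U L})
      (⋃₀ {U | U ∈ B ∧ (U ∩ L).Nonempty ∧ Disjoint U K}) := by
  rw [Set.disjoint_left]
  rintro z ⟨U, ⟨hU, ⟨x, hxU, hxK⟩, hUL⟩, hzU⟩ ⟨U', ⟨hU', ⟨y, hyU, hyL⟩, hUK⟩, hzU'⟩
  rcases hB z U hU U' hU' hzU hzU' with h | h
  · exact Set.disjoint_left.1 hUK (h hxU) hxK
  · exact Set.disjoint_left.1 hUL (h hyU) hyL

private theorem no_sub {A : V} {B T : Set (Set (El A))} (hB : IsBase B T) (K L : Set (El A))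
    (hL : Lᶜ ∈ T) (hd : Disjoint K L) :
    K ⊆ ⋃₀ {U | U ∈ B ∧ (U ∩ K).Nonempty ∧ Disjoint U L} := by
  intro x hx
  obtain ⟨U, hU, hxU, hUL⟩ := hB.2 _ hL x (Set.disjoint_left.1 hd hx)
  exact ⟨U, ⟨hU, ⟨x, hxU, hx⟩, Set.disjoint_left.2 fun y hy => hUL hy⟩, hxU⟩

theorem p_NO (xn : S_XN) (zc : S_ZC) (ij : S_IJ) (co : S_CO) (bm : S_BM) (tp : S_TP) :
    S_NO := by
  refine (bm.and (xn.and ev_zfc)).mono ?_
  rintro M G ⟨⟨h1, _, h3, h4⟩, ⟨h5, _⟩, h6⟩ K L hK hL hd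
  obtain ⟨z1, _, _, z4⟩ := zc _ h6 _ h5
  have hcK : cs K ∈ pp.N M G := by
    obtain ⟨_, _, _, hN⟩ := hK
    have := (z1 _ _ hN hN).2
    rwa [compl_compl] at this
  have hcL : cs L ∈ pp.N M G := by
    obtain ⟨_, _, _, hN⟩ := hL
    have := (z1 _ _ hN hN).2
    rwa [compl_compl] at this
  refine ⟨⋃₀ {U | U ∈ BB M G ∧ (U ∩ K).Nonempty ∧ Disjoint U L},
    no_union M G _ (fun U hU => hU.1) (z4 _ K L h1 hcK hcL),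
    ⋃₀ {U | U ∈ BB M G ∧ (U ∩ L).Nonempty ∧ Disjoint U K},
    no_union M G _ (fun U hU => hU.1) (z4 _ L K h1 hcL hcK),
    no_sub h3 K L hL hd, no_sub h3 L K hK hd.symm, no_disj h4 K L⟩

end Pool.Agent.NAM
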