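import Pool.Agent.Lib.MP_0d2ecd_gt.Mod.Stm

set_option autoImplicit false

/-!
# MP_0d2ecd_gt : the complements of the sets `E n` are open
-/

open scoped Ordinal

namespace Pool.Agent.NAM

open Pool.Agent.Lib.MP_0d2ecd_gt (W2 D D_congr D_mono D_tri D_symm)
open Pool.Agent.FW (Ev ev_rel ev_sub)

/-- the differences with the reference branch are finite below a node -/
private theorem oe_fin {p : Cn} {β : W2} (hβ : β ≤ p.top) {s : Nd} (hs : s ∈ p.T)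
    (hlt : s.len < β) {x : Nd} (hx : s.Ec x) : (D s.len x.f (p.r β).f).Finite := by
  have h1 : (D s.len s.f (p.r s.len).f).Finite := hs.2
  have h2 : (D s.len (p.r s.len).f (p.r β).f).Finite := by
    rw [D_symm]
    exact p.coh β s.len hlt.le hβ
  have h3 : (D s.len s.f (p.r β).f).Finite := (h1.union h2).subset (D_tri _ _ _ _)
  rwa [D_congr (s := x.f) (s' := s.f) (p.r β).f hx.2]

/-- the differences with the reference branch below a point -/
private theorem oe_pt {p : Cn} {β : W2} (hβ : β ≤ p.top) {y : Nd} (hy : y ∈ p.P)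
    (hlt : y.len ≤ β) : (∀ γ < y.len, (D γ y.f (p.r β).f).Finite) ∧
      ¬ (D y.len y.f (p.r β).f).Finite := by
  refine ⟨fun γ hγ => ?_, fun h => hy.2.2 ?_⟩
  · have h1 := hy.2.1 γ hγ
    have h2 : (D γ (p.r γ).f (p.r β).f).Finite := by
      rw [D_symm]
      exact p.coh β γ (hγ.le.trans hlt) hβ
    exact (h1.union h2).subset (D_tri _ _ _ _)
  · exact (h.union (p.coh β y.len hlt hβ)).subset (D_tri _ _ _ _)

/-- many differences below a proper restriction -/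
private theorem oe_many (np : S_NP) {p : Cn} {β : W2} (hβ : β ≤ p.top) {y : Nd} (hy : y ∈ p.P)
    (hlt : y.len ≤ β) (n : ℕ) : ∃ γ < y.len, n < (D γ y.f (p.r β).f).ncard := by
  obtain ⟨h1, h2⟩ := oe_pt hβ hy hlt
  obtain ⟨F, hF, hc⟩ := Set.Infinite.exists_subset_card_eq (s := D y.len y.f (p.r β).f) h2 (n + 1)
  have hne : F.Nonempty := by
    rw [← Finset.card_pos, hc]
    exact Nat.succ_pos n
  have hm : F.max' hne < y.len := (hF (F.max'_mem hne)).1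
  obtain ⟨δ, hδ, hδy⟩ := np.2.2.2.2.1 p y _ hy hm
  refine ⟨δ, hδy, ?_⟩
  have hsub : (F : Set W2) ⊆ D δ y.f (p.r β).f := fun ξ hξ =>
    ⟨(F.le_max' ξ hξ).trans_lt hδ, (hF hξ).2⟩
  have := Set.ncard_le_ncard hsub (h1 δ hδy)
  rw [Set.ncard_coe_finset, hc] at this
  exact this

theorem p_OE (np : S_NP) (gf : S_GF) : S_OE := by
  classical
  refine (gf.and (ev_sub.and (Ev.all (fun n : ℕ => ev_rel (π := pp) (fun l o =>
    ∃ (y : Nd) (p : Cn) (β γ : W2), l = [Ob.nd y, Ob.cn p, Ob.od β] ∧ o = Ob.od γ ∧ γ < y.len ∧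
      n < (D γ y.f (p.r β).f).ncard))))).mono ?_
  rintro M G ⟨⟨h1, -, -, -, -, -, -, -, h9, -, -⟩, hsub, hr⟩ β S hβ hS hSβ p hp hβp hST n
  refine ⟨fun x hx => hx.1, ?_⟩
  rintro y ⟨hy, hyn⟩
  rcases lt_or_ge β y.len with hlt | hle
  · refine ⟨y.res β, h9 y hy β hβ hlt, ⟨hlt, fun ξ hξ => (if_pos hξ).symm⟩, ?_⟩
    rintro x ⟨hx, hx1, hx2⟩
    refine ⟨hx, ?_⟩
    rintro ⟨s, hs, hsx, hc⟩
    have hag : ∀ ξ < s.len, x.f ξ = y.f ξ := fun ξ hξ =>
      (hx2 ξ (hξ.trans (hSβ s hs))).trans (if_pos (hξ.trans (hSβ s hs)))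
    refine hyn ⟨s, hs, ⟨(hSβ s hs).trans hlt, fun ξ hξ => (hag ξ hξ).symm.trans (hsx.2 ξ hξ)⟩, ?_⟩
    rwa [← D_congr (s := x.f) (s' := y.f) (p.r β).f hag]
  · have hyp : y ∈ p.P := (h1 p hp).2 y hy (hle.trans hβp)
    obtain ⟨γ0, hγ0, hc0⟩ := oe_many np hβp hyp hle n
    obtain ⟨o, ho, y', p', β', γ, hl, rfl, hγ, hcard⟩ := hr n [Ob.nd y, Ob.cn p, Ob.od β] (by
      intro z hz
      simp only [List.mem_cons, List.not_mem_nil, or_false] at hz
      rcases hz with rfl | rfl | rfl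
      · exact hy.1
      · exact hsub hp
      · exact hβ) ⟨Ob.od γ0, y, p, β, γ0, rfl, rfl, hγ0, hc0⟩
    simp only [List.cons.injEq, Ob.nd.injEq, Ob.cn.injEq, Ob.od.injEq, and_true] at hl
    obtain ⟨rfl, rfl, rfl⟩ := hl
    refine ⟨y.res γ, h9 y hy γ ho hγ, ⟨hγ, fun ξ hξ => (if_pos hξ).symm⟩, ?_⟩
    rintro x ⟨hx, hx1, hx2⟩
    refine ⟨hx, ?_⟩
    rintro ⟨s, hs, hsx, hc⟩
    have hag : ∀ ξ < γ, x.f ξ = y.f ξ := fun ξ hξ => (hx2 ξ hξ).trans (if_pos hξ)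
    rcases le_or_gt γ s.len with hge | hlt
    · have h2 : D γ y.f (p.r β).f = D γ x.f (p.r β).f :=
        (D_congr (s := x.f) (s' := y.f) (p.r β).f hag).symm
      rw [h2] at hcard
      have := Set.ncard_le_ncard (D_mono hge x.f (p.r β).f) (oe_fin hβp (hST hs) (hSβ s hs) hsx)
      omega
    · have hag' : ∀ ξ < s.len, x.f ξ = y.f ξ := fun ξ hξ => hag ξ (hξ.trans hlt)
      refine hyn ⟨s, hs, ⟨hlt.trans hγ, fun ξ hξ => (hag' ξ hξ).symm.trans (hsx.2 ξ hξ)⟩, ?_⟩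
      rwa [← D_congr (s := x.f) (s' := y.f) (p.r β).f hag']

end Pool.Agent.NAM
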