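import Pool.Agent.Lib.MP_0d2ecd_gt.Mod.Stm

set_option autoImplicit false

/-!
# MP_0d2ecd_gt : sets of points given by names
-/

namespace Pool.Agent.NAM

open Pool.Agent.CR (V Nm nat natN Memf Eqf IsTransModelZFC mem_val)
open Pool.Agent.FW (Ev ev_fun ev_rel ev_sub ev_ne)

theorem p_OS (bg : S_BG) (_el : S_EL) (xn : S_XN) : S_OS := by
  intro E hE
  have h := bg Nd Ob.nd (fun _ _ h => by simpa using h) (fun _ => elN) E
  refine (h.and xn).mono ?_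
  rintro M G ⟨h1, -, h2, -, -, h3⟩ l hl
  obtain ⟨h4, -, h5⟩ := h1 l hl
  refine ⟨h4, ?_⟩
  ext z
  rw [h5 z]
  constructor
  · rintro ⟨x, hx, ⟨p, hp, hpx⟩, rfl⟩
    have hxP : x ∈ PG M G := ⟨hx, p, hp, hE l x p hpx⟩
    exact (h3 _ x (fun y hy => hy.1) hxP).2 ⟨hxP, p, hp, hpx⟩
  · intro hz
    have hz' := hz
    unfold cs at hz
    rw [ZFSet.mem_sep] at hz
    obtain ⟨x, hx, rfl⟩ := (h2 z).1 hz.1
    obtain ⟨_, p, hp, hpx⟩ := (h3 _ x (fun y hy => hy.1) hx).1 hz'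
    exact ⟨x, hx.1, ⟨p, hp, hpx⟩, rfl⟩

end Pool.Agent.NAM
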