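import Pool.Agent.Lib.MP_0d2ecd_gt.Mod.Stm

set_option autoImplicit false

/-!
# MP_0d2ecd_gt : there are points above every node
-/

open Set
open scoped Ordinal Cardinal

namespace Pool.Agent.NAM

open Pool.Agent.Lib.MP_0d2ecd_gt (W2 D D_symm D_tri D_mono D_congr exists_gt_W2 exists_gt_seq)

/-- an increasing sequence without gaps and its supremum -/
theorem p6_seq (β : W2) : ∃ (b : ℕ → W2) (l : W2), b 0 = β ∧ StrictMono b ∧ (∀ n, b n < l) ∧
    ∀ γ < l, {ξ | β ≤ ξ ∧ ξ < γ}.Finite := by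
  classical
  have hnx : ∀ a : W2, ∃ c, a < c ∧ ∀ ξ, a < ξ → c ≤ ξ := by
    intro a
    obtain ⟨c, hc, hmin⟩ := WellFounded.has_min (wellFounded_lt (α := W2)) {c | a < c} (exists_gt_W2 a)
    exact ⟨c, hc, fun ξ hξ => not_lt.1 (hmin ξ hξ)⟩
  choose nx hnx1 hnx2 using hnx
  let b : ℕ → W2 := fun n => Nat.rec β (fun _ c => nx c) n
  have hb0 : b 0 = β := rfl
  have hbs : ∀ n, b n < b (n + 1) := fun n => hnx1 _
  have hbm : StrictMono b := strictMono_nat_of_lt_succ hbs
  obtain ⟨l, hl, hmin⟩ := WellFounded.has_min (wellFounded_lt (α := W2))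
    {l | ∀ n, b n < l} (exists_gt_seq b)
  refine ⟨b, l, hb0, hbm, hl, fun γ hγ => ?_⟩
  obtain ⟨n, hn⟩ : ∃ n, γ ≤ b n := by
    by_contra hcon
    push Not at hcon
    exact hmin γ hcon hγ
  have key : ∀ n ξ, β ≤ ξ → ξ < b n → ∃ k < n, b k = ξ := by
    intro n
    induction n with
    | zero => intro ξ h1 h2; exact absurd h2 (not_lt.2 h1)
    | succ n ih =>
      intro ξ h1 h2
      have h3 : ξ ≤ b n := by
        by_contra hcon
        push Not at hcon
        exact absurd h2 (not_lt.2 (hnx2 (b n) ξ hcon))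
      rcases lt_or_eq_of_le h3 with h | h
      · obtain ⟨k, hk, hk2⟩ := ih ξ h1 h
        exact ⟨k, by omega, hk2⟩
      · exact ⟨n, by omega, h.symm⟩
  refine Set.Finite.subset ((Set.finite_Iio n).image b) ?_
  rintro ξ ⟨h1, h2⟩
  obtain ⟨k, hk, hk2⟩ := key n ξ h1 (lt_of_lt_of_le h2 hn)
  exact ⟨k, hk, hk2⟩

theorem p_P6 (_np : S_NP) : S_P6 := by
  classical
  intro p s hs
  obtain ⟨b, l, hb0, hbm, hbl, hfin⟩ := p6_seq p.top
  have hpl : p.top < l := by rw [← hb0]; exact hbl 0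
  have htop : ∀ ξ, p.top ≤ ξ → p.tp.f ξ = false := by
    intro ξ hξ
    exact (p.r p.top).out ξ (by rw [p.len]; exact hξ)
  let qr : W2 → Nd := fun γ => if h : γ ≤ p.top then p.r γ else
    ⟨γ, p.tp.f, fun ξ hξ => htop ξ ((not_le.1 h).le.trans hξ)⟩
  have hq1 : ∀ γ, γ ≤ p.top → qr γ = p.r γ := fun γ h => dif_pos h
  have hq2 : ∀ γ, ¬ γ ≤ p.top → (qr γ).f = p.tp.f ∧ (qr γ).len = γ := by
    intro γ h
    have : qr γ = ⟨γ, p.tp.f, fun ξ hξ => htop ξ ((not_le.1 h).le.trans hξ)⟩ := dif_neg h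
    rw [this]
    exact ⟨rfl, rfl⟩
  let q : Cn :=
    { top := l
      r := qr
      len := by
        intro γ
        by_cases h : γ ≤ p.top
        · rw [hq1 γ h, p.len]
        · exact (hq2 γ h).2
      coh := by
        intro γ δ hδ hγ
        by_cases h : γ ≤ p.top
        · rw [hq1 γ h, hq1 δ (hδ.trans h)]
          exact p.coh γ δ hδ h
        · rw [(hq2 γ h).1]
          by_cases h' : δ ≤ p.top
          · rw [hq1 δ h']
            exact p.coh p.top δ h' le_rfl
          · rw [(hq2 δ h').1]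
            refine Set.Finite.subset Set.finite_empty ?_
            rintro ξ ⟨_, h⟩
            exact h rfl }
  have hqp : q ≤ p := ⟨hpl.le, fun γ hγ => hq1 γ hγ⟩
  have hsl : s.len ≤ p.top := hs.1
  let x : Nd :=
    { len := l
      f := fun ξ => if ξ < s.len then s.f ξ else if ξ < p.top then p.tp.f ξ else if ξ < l then true
        else false
      out := by
        intro ξ hξ
        rw [if_neg (not_lt.2 (hsl.trans (hpl.le.trans hξ))), if_neg (not_lt.2 (hpl.le.trans hξ)),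
          if_neg (not_lt.2 hξ)] }
  have hx1 : ∀ ξ < s.len, x.f ξ = s.f ξ := fun ξ hξ => if_pos hξ
  have hx2 : ∀ ξ, ¬ ξ < s.len → ξ < p.top → x.f ξ = p.tp.f ξ := by
    intro ξ h1 h2
    change (if ξ < s.len then s.f ξ else if ξ < p.top then p.tp.f ξ else if ξ < l then true
        else false) = _
    rw [if_neg h1, if_pos h2]
  have hx3 : ∀ ξ, ¬ ξ < p.top → ξ < l → x.f ξ = true := by
    intro ξ h1 h2
    change (if ξ < s.len then s.f ξ else if ξ < p.top then p.tp.f ξ else if ξ < l then true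
        else false) = _
    rw [if_neg (fun h => h1 (lt_of_lt_of_le h hsl)), if_neg h1, if_pos h2]
  have hD1 : (D p.top x.f p.tp.f).Finite := by
    have h1 : (D s.len s.f p.tp.f).Finite :=
      Set.Finite.subset (Set.Finite.union hs.2 (by
        rw [D_symm]
        exact p.coh p.top s.len hsl le_rfl)) (D_tri s.len s.f (p.r s.len).f p.tp.f)
    refine h1.subset ?_
    rintro ξ ⟨h2, h3⟩
    by_cases h : ξ < s.len
    · exact ⟨h, by rw [← hx1 ξ h]; exact h3⟩
    · exact absurd (hx2 ξ h h2) h3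
  refine ⟨q, hqp, x, ⟨le_rfl, fun γ hγ => ?_, ?_⟩, lt_of_le_of_lt hsl hpl, hx1⟩
  · change (D γ x.f (qr γ).f).Finite
    by_cases h : γ ≤ p.top
    · rw [hq1 γ h]
      exact Set.Finite.subset (Set.Finite.union (hD1.subset (D_mono h _ _)) (p.coh p.top γ h le_rfl))
        (D_tri γ x.f p.tp.f (p.r γ).f)
    · rw [(hq2 γ h).1]
      refine Set.Finite.subset (Set.Finite.union hD1 (hfin γ hγ)) ?_
      rintro ξ ⟨h2, h3⟩
      rcases lt_or_ge ξ p.top with h4 | h4
      · exact Or.inl ⟨h4, h3⟩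
      · exact Or.inr ⟨h4, h2⟩
  · change ¬ (D l x.f (qr l).f).Finite
    rw [(hq2 l (not_le.2 hpl)).1]
    intro hf
    have h1 : range b ⊆ D l x.f p.tp.f := by
      rintro _ ⟨n, rfl⟩
      have h2 : p.top ≤ b n := by rw [← hb0]; exact hbm.monotone (Nat.zero_le n)
      refine ⟨hbl n, ?_⟩
      rw [hx3 (b n) (not_lt.2 h2) (hbl n), htop _ h2]
      decide
    exact (Set.infinite_range_of_injective hbm.injective) (hf.subset h1)

end Pool.Agent.NAM
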