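import Pool.Agent.Lib.MP_0d2ecd_gt.Mod.Stm

set_option autoImplicit false

open scoped Ordinal Cardinal

namespace Pool.Agent.NAM

open Pool.Agent.Lib.MP_0d2ecd_gt (W2 D D_tri)

theorem p_P7 (np : S_NP) (p6 : S_P6) : S_P7 := by
  classical
  intro p s t hs _ hts
  obtain ⟨h1, h2⟩ := hts
  have hne : {b : W2 | t.len < b}.Nonempty := ⟨s.len, h1⟩
  obtain ⟨b, hb1, hb2⟩ : ∃ b : W2, t.len < b ∧ ∀ c, t.len < c → b ≤ c :=
    ⟨(wellFounded_lt (α := W2)).min _ hne, (wellFounded_lt (α := W2)).min_mem _ hne,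
      fun c hc => not_lt.1 ((wellFounded_lt (α := W2)).not_lt_min _ hc)⟩
  have hbs : b ≤ s.len := hb2 _ h1
  set t' : Nd :=
    { len := b
      f := fun ξ => if ξ = t.len then !(s.f ξ) else if ξ < t.len then t.f ξ else false
      out := fun ξ hξ => by
        have h3 : t.len < ξ := lt_of_lt_of_le hb1 hξ
        rw [if_neg h3.ne', if_neg h3.not_gt] } with ht'
  have ht'l : t'.len = b := rfl
  have ht'f : ∀ ξ < t.len, t'.f ξ = t.f ξ := by
    intro ξ hξ
    rw [ht']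
    simp only [if_neg hξ.ne, if_pos hξ]
  have ht'e : t'.f t.len = !(s.f t.len) := by
    rw [ht']
    simp only [if_true]
  have hres : s.res b ∈ p.T := np.2.2.1 p s b hs hbs
  have hT : t' ∈ p.T := by
    refine ⟨hbs.trans hs.1, ?_⟩
    refine Set.Finite.subset (Set.Finite.union (Set.finite_singleton t.len) hres.2)
      ((D_tri _ _ (s.res b).f _).trans (Set.union_subset_union ?_ (le_refl _)))
    rintro ξ ⟨hξ, hne'⟩
    have hξb : ξ < b := hξ
    have hle : ξ ≤ t.len := not_lt.1 fun hlt => absurd hξb (not_lt.2 (hb2 ξ hlt))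
    rcases lt_or_eq_of_le hle with hlt | heq
    · exfalso
      apply hne'
      rw [ht'f ξ hlt, ← h2 ξ hlt]
      exact (if_pos hξb).symm
    · exact heq
  obtain ⟨q, hq, x, hx, hx1, hx2⟩ := p6 p t' hT
  rw [ht'l] at hx1 hx2
  refine ⟨q, hq, x, hx, ⟨hb1.trans hx1, fun ξ hξ => ?_⟩, fun hsx => ?_⟩
  · rw [hx2 ξ (hξ.trans hb1), ht'f ξ hξ]
  · have h3 := hsx.2 t.len h1
    rw [hx2 t.len hb1, ht'e] at h3
    cases hh : s.f t.len <;> rw [hh] at h3 <;> cases h3

end Pool.Agent.NAM
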