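import Pool.Agent.Lib.MP_0d2ecd_gt.Mod.Stm

set_option autoImplicit false

/-!
# MP_0d2ecd_gt : closed sets are intersections of sequences of open sets
-/

namespace Pool.Agent.NAM

open Pool.Agent.Lib.MP_0d2ecd_gt (W2 D)
open Pool.Agent.CR (V Nm nat natN Memf Eqf IsTransModelZFC)
open Pool.Agent.FW (Ev ev_fun ev_rel ev_sub)

/-- points not captured by `S` at level `n` -/
private def pe_C (S : Set Nd) (ρ : Nd) (n : ℕ) (x : Nd) : Prop :=
  ¬ ∃ s ∈ S, s.Ec x ∧ (D s.len x.f ρ.f).ncard ≤ n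

private def pe_E (l : List Ob) (n : ℕ) (x : Nd) : Set Cn :=
  {q | x ∈ q.P ∧ ∀ S ρ, l = [.ss S, .nd ρ] → pe_C S ρ n x}

private def pe_F (l : List Ob) (x : Nd) : Set Cn :=
  {q | x ∈ q.P ∧ ∀ S ρ n, l = [.ss S, .nd ρ, .kk n] → pe_C S ρ n x}

private theorem pe_cs {A : V} (O : Set (El A)) (z : El A) : z.1 ∈ cs O ↔ z ∈ O := by
  unfold cs
  rw [ZFSet.mem_sep]
  constructor
  · rintro ⟨_, _, h⟩
    exact h
  · intro h
    exact ⟨z.2, z.2, h⟩

theorem p_PE (xn : S_XN) (os : S_OS) (ss : S_SS) (gf : S_GF) (rp : S_RP) (oe : S_OE) : S_PE := by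
  refine ((xn.and (rp.and oe)).and (((ss pe_E fun _ _ _ _ h => h.1).and
    (os pe_F fun _ _ _ h => h.1)).and ((gf.and (ev_sub (π := pp))).and
    ((Ev.all fun m : ℕ => ev_fun (π := pp) (fun _ => Ob.kk m)).and
    (ev_rel (π := pp) fun l y => ∃ S x s, l = [.ss S, .nd x] ∧ s ∈ S ∧ s.Ec x ∧ y = .nd s))))).mono ?_
  rintro M G ⟨⟨hx, hr, ho⟩, ⟨hs, hos⟩, ⟨hg, hsub⟩, hk, hrel⟩ K ⟨O', hO, hK, hKN⟩
  rw [hK] at hKN
  obtain ⟨β, S, hβ, hS, ⟨p, hp, hpβ, hpS⟩, hlen, hBG, hcov⟩ := hr O' hO hKN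
  have hcn : Ob.cn p ∈ M := hsub hp
  have hρ : Ob.nd (p.r β) ∈ M := hg.2.2.2.2.2.2.1 p β hcn hβ
  set ρ := p.r β with hρd
  have hl : ∀ y ∈ [Ob.ss S, Ob.nd ρ], y ∈ M := by
    intro y hy
    simp only [List.mem_cons, List.not_mem_nil, or_false] at hy
    rcases hy with rfl | rfl
    · exact hS
    · exact hρ
  have e1 : ∀ n, {x | x ∈ PG M G ∧ ∃ p ∈ G, p ∈ pe_E [Ob.ss S, Ob.nd ρ] n x} =
      {x | x ∈ PG M G ∧ pe_C S ρ n x} := by
    intro n
    ext x
    constructor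
    · rintro ⟨h1, q, _, _, h2⟩
      exact ⟨h1, h2 S ρ rfl⟩
    · rintro ⟨h1, h2⟩
      obtain ⟨q, hq, hq'⟩ := h1.2
      refine ⟨h1, q, hq, hq', ?_⟩
      intro S' ρ' h
      injection h with h3 h4
      injection h4 with h5 h6
      injection h3 with h3
      injection h5 with h5
      rw [← h3, ← h5]
      exact h2
  have e2 : ∀ n, {x | x ∈ PG M G ∧ ∃ p ∈ G, p ∈ pe_F [Ob.ss S, Ob.nd ρ, Ob.kk n] x} =
      {x | x ∈ PG M G ∧ pe_C S ρ n x} := by
    intro n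
    ext x
    constructor
    · rintro ⟨h1, q, _, _, h2⟩
      exact ⟨h1, h2 S ρ n rfl⟩
    · rintro ⟨h1, h2⟩
      obtain ⟨q, hq, hq'⟩ := h1.2
      refine ⟨h1, q, hq, hq', ?_⟩
      intro S' ρ' n' h
      injection h with h3 h4
      injection h4 with h5 h6
      injection h6 with h7 h8
      injection h3 with h3
      injection h5 with h5
      injection h7 with h7
      rw [← h3, ← h5, ← h7]
      exact h2
  have key : ∀ (z : El (Av M G)) (x : Nd) (O : Set Nd), x ∈ PG M G → O ⊆ PG M G →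
      z.1 = pp.vl M G (elN x) → (z ∈ im M G O ↔ x ∈ O) := by
    intro z x O h1 h2 h3
    rw [← pe_cs, h3]
    exact hx.2.2.2.2 O x h2 h1
  refine ⟨fun n => im M G {x | x ∈ PG M G ∧ pe_C S ρ n x}, ?_, ?_, ?_⟩
  · have := hs [Ob.ss S, Ob.nd ρ] hl
    simp only [e1] at this
    exact this
  · intro n
    refine ⟨{x | x ∈ PG M G ∧ pe_C S ρ n x}, ho β S hβ hS hlen p hp hpβ hpS n, rfl, ?_⟩
    have h1 := hos [Ob.ss S, Ob.nd ρ, Ob.kk n] (by
      intro y hy
      simp only [List.mem_cons, List.not_mem_nil, or_false] at hy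
      rcases hy with rfl | rfl | rfl
      · exact hS
      · exact hρ
      · exact hk n [] (by simp))
    rw [e2 n] at h1
    rw [← h1.2]
    exact ⟨_, h1.1, rfl⟩
  · ext z
    obtain ⟨x, hxP, hzx⟩ := (hx.2.1 z.1).1 z.2
    have h1 : z ∈ K ↔ x ∉ O' := by
      rw [← key z x O' hxP hO.1 hzx, ← hK]
      simp
    rw [h1, Set.mem_iInter]
    constructor
    · intro h2 n
      rw [key z x _ hxP (fun _ h => h.1) hzx]
      refine ⟨hxP, ?_⟩
      rintro ⟨s, hsS, hsx, _⟩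
      obtain ⟨y, hyM, S', x', s', h3, h4, h5, h6⟩ := hrel [Ob.ss S, Ob.nd x] (by
        intro y hy
        simp only [List.mem_cons, List.not_mem_nil, or_false] at hy
        rcases hy with rfl | rfl
        · exact hS
        · exact hxP.1) ⟨_, S, x, s, rfl, hsS, hsx, rfl⟩
      injection h3 with h7 h8
      injection h8 with h9 h10
      injection h7 with h7
      injection h9 with h9
      subst h7 h9 h6
      exact h2 (hBG s' h4 hyM ⟨hxP, h5⟩)
    · intro h2 h3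
      obtain ⟨s, hsS, _, hsx⟩ := hcov x h3
      have h4 := h2 (D s.len x.f ρ.f).ncard
      rw [key z x _ hxP (fun _ h => h.1) hzx] at h4
      exact h4.2 ⟨s, hsS, hsx, le_rfl⟩

end Pool.Agent.NAM
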