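import Pool.Agent.Lib.MP_0d2ecd_gt.Mod.Stm
import Pool.Agent.Lib.MP_0d2ecd_gt.W2

set_option autoImplicit false

/-!
# MP_0d2ecd_gt : the open sets of the model are given by bounded sets of nodes
-/

open scoped Ordinal Cardinal

namespace Pool.Agent.NAM

open Pool.Agent.Lib.MP_0d2ecd_gt (W2 D mk_Iio_W2)
open Pool.Agent.CR (V Nm nat natN Memf Eqf IsTransModelZFC)
open Pool.Agent.FW (Ev ev_rel ev_dense ev_dir ev_sub)

private theorem rp_FD_mono {σ : Nm Cn} {p q : Cn} {t : Nd} (h : FD σ p t) (hq : q ≤ p) :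
    FD σ q t := fun r hr x hx ht => h r (hr.trans hq) x hx ht

/-- the nodes decided by a condition are few -/
theorem rp_card (q : Cn) : #{s : Nd // s ∈ q.T} ≤ ℵ_ 1 := by
  classical
  obtain ⟨b, hb⟩ := Pool.Agent.Lib.MP_0d2ecd_gt.exists_gt_W2 q.top
  have hle : ∀ s : {s : Nd // s ∈ q.T}, s.1.len < b := fun s => lt_of_le_of_lt s.2.1 hb
  let F : {s : Nd // s ∈ q.T} → Set.Iio b × Finset (Set.Iio b) := fun s =>
    (⟨s.1.len, hle s⟩, s.2.2.toFinset.subtype (fun ξ => ξ ∈ Set.Iio b))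
  have hF : Function.Injective F := by
    intro s t hst
    have h1 : s.1.len = t.1.len := congrArg (fun z => z.1.1) hst
    have h2 := congrArg Prod.snd hst
    apply Subtype.ext
    apply Nd.ext
    · exact h1
    · funext ξ
      by_cases hξ : s.1.len ≤ ξ
      · rw [s.1.out ξ hξ, t.1.out ξ (h1 ▸ hξ)]
      · have hξ : ξ < s.1.len := not_le.1 hξ
        have hξb : ξ ∈ Set.Iio b := lt_trans hξ (hle s)
        have h3 : (⟨ξ, hξb⟩ : Set.Iio b) ∈ s.2.2.toFinset.subtype (fun ξ => ξ ∈ Set.Iio b) ↔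
            (⟨ξ, hξb⟩ : Set.Iio b) ∈ t.2.2.toFinset.subtype (fun ξ => ξ ∈ Set.Iio b) := by
          change (F s).2 = (F t).2 at h2
          exact iff_of_eq (congrArg (fun z => (⟨ξ, hξb⟩ : Set.Iio b) ∈ z) h2)
        rw [Finset.mem_subtype, Finset.mem_subtype, Set.Finite.mem_toFinset,
          Set.Finite.mem_toFinset] at h3
        have h4 : (ξ < s.1.len ∧ s.1.f ξ ≠ (q.r s.1.len).f ξ) ↔
            (ξ < t.1.len ∧ t.1.f ξ ≠ (q.r t.1.len).f ξ) := h3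
        rw [← h1] at h4
        have h5 : (s.1.f ξ ≠ (q.r s.1.len).f ξ) ↔ (t.1.f ξ ≠ (q.r s.1.len).f ξ) :=
          ⟨fun h => (h4.1 ⟨hξ, h⟩).2, fun h => (h4.2 ⟨hξ, h⟩).2⟩
        generalize (q.r s.1.len).f ξ = c at h5
        generalize s.1.f ξ = a at h5
        generalize t.1.f ξ = d at h5
        revert h5
        cases a <;> cases c <;> cases d <;> simp
  refine (Cardinal.mk_le_of_injective hF).trans ?_
  rw [Cardinal.mk_prod, Cardinal.lift_id, Cardinal.lift_id]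
  have hb1 : #(Set.Iio b) ≤ ℵ_ 1 := mk_Iio_W2 b
  have hb2 : #(Finset (Set.Iio b)) ≤ ℵ_ 1 := by
    rcases finite_or_infinite (Set.Iio b) with h | h
    · exact (Cardinal.lt_aleph0_of_finite _).le.trans (Cardinal.aleph0_le_aleph 1)
    · rw [Cardinal.mk_finset_of_infinite]
      exact hb1
  exact (mul_le_mul' hb1 hb2).trans (Cardinal.mul_eq_self (Cardinal.aleph0_le_aleph 1)).le

/-- `S` is the set of nodes of length less than `β` contained in the set named by `σ` -/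
private def rpZ (σ : Nm Cn) (q : Cn) (β : W2) (S : Set Nd) : Prop :=
  β ≤ q.top ∧ S ⊆ q.T ∧ (∀ s ∈ S, s.len < β ∧ FD σ q s) ∧
  (∀ s ∈ q.T, s.len < β → s ∉ S → ∀ r ≤ q, ¬ FD σ r s) ∧
  ∀ s ∈ q.T, s.len = β → (∃ γ < β, s.res γ ∈ S) ∨ ∀ r ≤ q, ∀ t ∈ r.T, s.Ex t → ¬ FD σ r t

private theorem rp_dense (np : S_NP) (se : S_SE) (gn : S_GN) (σ : Nm Cn) (p : Cn) :
    ∃ q ≤ p, ∃ β S, rpZ σ q β S := by
  classical
  obtain ⟨q, hqp, hq⟩ := se (fun p t => FD σ p t) (fun p q t h ht => rp_FD_mono ht h) p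
  obtain ⟨q', hq'q, F, hF⟩ := gn {s : Nd // s ∈ q.T} (ULift.{1} Bool)
    (fun a x r => (x.down = true ∧ FD σ r a.1) ∨ (x.down = false ∧ ∀ r' ≤ r, ¬ FD σ r' a.1))
    (rp_card q) (by
      rintro a x p q h (⟨h1, h2⟩ | ⟨h1, h2⟩)
      · exact Or.inl ⟨h1, rp_FD_mono h2 h⟩
      · exact Or.inr ⟨h1, fun r hr => h2 r (hr.trans h)⟩) q (by
      intro a q1 _
      by_cases h : ∃ r ≤ q1, FD σ r a.1
      · obtain ⟨r, hr, h⟩ := h
        exact ⟨r, hr, ⟨true⟩, Or.inl ⟨rfl, h⟩⟩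
      · exact ⟨q1, le_rfl, ⟨false⟩, Or.inr ⟨rfl, fun r hr h' => h ⟨r, hr, h'⟩⟩⟩)
  refine ⟨q', hq'q.1.trans hqp.1, q.top, {s | s ∈ q.T ∧ s.len < q.top ∧ FD σ q' s}, hq'q.1.1,
    fun s hs => (np.1 q q' hq'q.1).1 hs.1, fun s hs => hs.2, ?_, ?_⟩
  · intro s hs hsl hsS
    have hsq : s ∈ q.T := (np.2.1 q q' hq'q.1).1 s hs hsl.le
    rcases hF ⟨s, hsq⟩ with ⟨_, h⟩ | ⟨_, h⟩
    · exact absurd ⟨hsq, hsl, h⟩ hsS
    · exact h
  · intro s hs hsl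
    have hsq : s ∈ q.T := (np.2.1 q q' hq'q.1).1 s hs hsl.le
    rcases hq s hsq hsl with ⟨γ, hγ, h⟩ | h
    · exact Or.inl ⟨γ, hγ, np.2.2.1 q s γ hsq (hsl ▸ hγ.le), hγ, rp_FD_mono h hq'q.1⟩
    · exact Or.inr fun r hr t ht hst => h r (hr.trans hq'q.1) t ht hst

theorem p_RP (_e1 : S_E1) (np : S_NP) (se : S_SE) (gn : S_GN) (_el : S_EL) (xn : S_XN) (gf : S_GF)
    (fd : S_FD) : S_RP := by
  refine ((xn.and (gf.and fd)).and ((ev_dir.and ev_sub).and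
    ((ev_dense (π := pp) (fun l => match l with
      | [.nm σ] => {q | ∃ β S, rpZ σ q β S}
      | _ => ∅)).and
    ((ev_rel (π := pp) (fun l x => ∃ σ q β, l = [.nm σ, .cn q] ∧ x = .od β ∧
      ∃ S, rpZ σ q β S)).and
    ((ev_rel (π := pp) (fun l x => ∃ σ q β S, l = [.nm σ, .cn q, .od β] ∧ x = .ss S ∧
      rpZ σ q β S)).and
    (ev_rel (π := pp) (fun l x => ∃ y S u, l = [.nd y, .ss S] ∧ x = .nd u ∧
      u ∈ S ∧ u.Ec y))))))).mono ?_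
  rintro M G ⟨⟨⟨_, _, _, _, hX⟩, ⟨g1, _, _, _, _, _, _, _, g9, _⟩, hFD⟩, ⟨hdir, hsub⟩, h1, h2,
    h3, h4⟩ O hO ⟨σ, hσ, hσO⟩
  have hσM : Ob.nm σ ∈ M := hσ
  have hσO : pp.vl M G σ = cs (im M G O) := hσO
  have hmem : ∀ x ∈ PG M G, pp.vl M G (elN x) ∈ pp.vl M G σ ↔ x ∈ O := by
    intro x hx
    rw [hσO]
    exact hX O x hO.1 hx
  obtain ⟨q, hqG, β0, S0, hZ0⟩ := h1 [.nm σ] (by simpa using hσM)
    (fun p => rp_dense np se gn σ p)
  have hqM : Ob.cn q ∈ M := hsub hqG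
  obtain ⟨_, hβM, σ', q', β, h5, rfl, S1, hZ1⟩ := h2 [.nm σ, .cn q] (by simp [hσM, hqM])
    ⟨.od β0, σ, q, β0, rfl, rfl, S0, hZ0⟩
  simp only [List.cons.injEq, Ob.nm.injEq, Ob.cn.injEq, and_true] at h5
  obtain ⟨rfl, rfl⟩ := h5
  obtain ⟨_, hSM, σ', q', β', S, h5, rfl, hZ⟩ := h3 [.nm σ, .cn q, .od β]
    (by simp [hσM, hqM, hβM]) ⟨.ss S1, σ, q, β, S1, rfl, rfl, hZ1⟩
  simp only [List.cons.injEq, Ob.nm.injEq, Ob.cn.injEq, Ob.od.injEq, and_true] at h5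
  obtain ⟨rfl, rfl, rfl⟩ := h5
  obtain ⟨z1, z2, z3, z4, z5⟩ := hZ
  refine ⟨β, S, hβM, hSM, ⟨q, hqG, z1, z2⟩, fun s hs => (z3 s hs).1, ?_, ?_⟩
  · intro s hs hsM x hx
    have hsT : s ∈ TG M G := ⟨hsM, q, hqG, z2 hs⟩
    exact (hmem x hx.1).1 ((hFD σ hσ s hsT).2 ⟨q, hqG, (z3 s hs).2⟩ x hx)
  · intro x hx
    have hxP : x ∈ PG M G := hO.1 hx
    have hxM : Ob.nd x ∈ M := hxP.1
    obtain ⟨s, hsT, hsx, hsO⟩ := hO.2 x hx
    obtain ⟨p, hpG, hp⟩ := (hFD σ hσ s hsT).1 fun y hy => (hmem y hy.1).2 (hsO hy)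
    obtain ⟨hsM, p2, hp2G, hsp2⟩ := hsT
    obtain ⟨r1, hr1G, hr1p, hr1q⟩ := hdir p hpG q hqG
    obtain ⟨r, hrG, hrr1, hrp2⟩ := hdir r1 hr1G p2 hp2G
    have hrq : r ≤ q := hrr1.trans hr1q
    have hFr : FD σ r s := rp_FD_mono hp (hrr1.trans hr1p)
    rcases lt_or_ge s.len β with hlt | hge
    · have hsq : s ∈ q.T := (g1 q hqG).1 s ⟨hsM, p2, hp2G, hsp2⟩ (hlt.le.trans z1)
      by_cases hsS : s ∈ S
      · exact ⟨s, hsS, hsM, hsx⟩
      · exact absurd hFr (z4 s hsq hlt hsS r hrq)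
    · have hβx : β < x.len := lt_of_le_of_lt hge hsx.1
      have hsT' : x.res β ∈ TG M G := g9 x hxP β hβM hβx
      have hsq : x.res β ∈ q.T := (g1 q hqG).1 _ hsT' z1
      rcases z5 _ hsq rfl with ⟨γ, hγ, hγS⟩ | h
      · obtain ⟨_, huM, y, S', u, h6, rfl, huS, huy⟩ := h4 [.nd x, .ss S] (by simp [hxM, hSM])
          ⟨.nd ((x.res β).res γ), x, S, _, rfl, rfl, hγS, hγ.trans hβx, fun ξ hξ => by
            have hξ : ξ < γ := hξ
            change x.f ξ = if ξ < γ then (if ξ < β then x.f ξ else false) else false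
            rw [if_pos hξ, if_pos (hξ.trans hγ)]⟩
        simp only [List.cons.injEq, Ob.nd.injEq, Ob.ss.injEq, and_true] at h6
        obtain ⟨rfl, rfl⟩ := h6
        exact ⟨u, huS, huM, huy⟩
      · refine absurd hFr (h r hrq s ((np.1 p2 r hrp2).1 hsp2) ⟨hge, fun ξ hξ => ?_⟩)
        have hξ : ξ < β := hξ
        change s.f ξ = if ξ < β then x.f ξ else false
        rw [if_pos hξ, hsx.2 ξ (lt_of_lt_of_le hξ hge)]

end Pool.Agent.NAM
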