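import Pool.Agent.Lib.MP_0d2ecd_gt.Mod.Stm

set_option autoImplicit false

/-!
# MP_0d2ecd_gt : sealing
-/

open scoped Ordinal Cardinal

namespace Pool.Agent.NAM

open Pool.Agent.Lib.MP_0d2ecd_gt (W2 D D_symm D_tri D_mono D_congr mk_Iio_W2)

/-- the node of length `q.top` which is `s` below `p.top` and the top node of `q` above -/
noncomputable def se_u (p q : Cn) (s : Nd) : Nd where
  len := q.top
  f := fun ξ => if ξ < q.top then (if ξ < p.top then s.f ξ else q.tp.f ξ) else false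
  out := fun _ hξ => if_neg (not_lt.2 hξ)

private theorem se_len (p q : Cn) (s : Nd) : (se_u p q s).len = q.top := rfl

private theorem se_lo (p q : Cn) (s : Nd) {ξ : W2} (h : ξ < q.top) (h' : ξ < p.top) :
    (se_u p q s).f ξ = s.f ξ := by
  change (if ξ < q.top then (if ξ < p.top then s.f ξ else q.tp.f ξ) else false) = _
  rw [if_pos h, if_pos h']

private theorem se_hi (p q : Cn) (s : Nd) {ξ : W2} (h : ξ < q.top) (h' : p.top ≤ ξ) :
    (se_u p q s).f ξ = q.tp.f ξ := by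
  change (if ξ < q.top then (if ξ < p.top then s.f ξ else q.tp.f ξ) else false) = _
  rw [if_pos h, if_neg (not_lt.2 h')]

/-- the property to be achieved for the node `s` -/
def se_Done (R : Cn → Nd → Prop) (p q : Cn) (s : Nd) : Prop :=
  (∃ γ < q.top, R q ((se_u p q s).res γ)) ∨ ∀ r ≤ q, ∀ t ∈ r.T, (se_u p q s).Ex t → ¬ R r t

private theorem se_agree {p q q' : Cn} (s : Nd) (h : Ee q' q) {ξ : W2} (hξ : ξ < q.top) :
    (se_u p q' s).f ξ = (se_u p q s).f ξ := by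
  have h1 : ξ < q'.top := lt_of_lt_of_le hξ h.1.1
  rcases lt_or_ge ξ p.top with h2 | h2
  · rw [se_lo p q' s h1 h2, se_lo p q s hξ h2]
  · rw [se_hi p q' s h1 h2, se_hi p q s hξ h2, h.2 ξ hξ]

private theorem se_mono {R : Cn → Nd → Prop} (hR : ∀ p q t, q ≤ p → R p t → R q t)
    {p q q' : Cn} {s : Nd} (h : Ee q' q) (hd : se_Done R p q s) : se_Done R p q' s := by
  rcases hd with ⟨γ, hγ, h1⟩ | h1
  · left
    refine ⟨γ, lt_of_lt_of_le hγ h.1.1, ?_⟩
    have e : (se_u p q' s).res γ = (se_u p q s).res γ := by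
      apply Nd.ext
      · rfl
      · funext ξ
        change (if ξ < γ then (se_u p q' s).f ξ else false) =
          (if ξ < γ then (se_u p q s).f ξ else false)
        by_cases hξ : ξ < γ
        · rw [if_pos hξ, if_pos hξ, se_agree s h (hξ.trans hγ)]
        · rw [if_neg hξ, if_neg hξ]
    rw [e]
    exact hR _ _ _ h.1 h1
  · right
    intro r hr t ht hex
    refine h1 r (hr.trans h.1) t ht ⟨h.1.1.trans hex.1, fun ξ hξ => ?_⟩
    have hξ : ξ < q.top := hξ
    rw [hex.2 ξ (lt_of_lt_of_le hξ h.1.1), se_agree s h hξ]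

private theorem se_uT {p q : Cn} (h : Ee q p) {s : Nd} (hs : s ∈ p.T) (hsl : s.len = p.top) :
    se_u p q s ∈ q.T := by
  refine ⟨le_rfl, ?_⟩
  have h1 : (D s.len s.f (p.r s.len).f).Finite := hs.2
  rw [hsl] at h1
  refine h1.subset ?_
  rintro ξ ⟨h2, h3⟩
  have h2 : ξ < q.top := h2
  have h3 : (se_u p q s).f ξ ≠ q.tp.f ξ := h3
  rcases lt_or_ge ξ p.top with h4 | h4
  · refine ⟨h4, ?_⟩
    rw [se_lo p q s h2 h4, h.2 ξ h4] at h3
    exact h3
  · exact absurd (se_hi p q s h2 h4) h3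

private theorem se_step (e1 : S_E1) (fl : S_FL) {R : Cn → Nd → Prop}
    (hR : ∀ p q t, q ≤ p → R p t → R q t) {p q : Cn} (h : Ee q p) {s : Nd} (hs : s ∈ p.T)
    (hsl : s.len = p.top) : ∃ q', Ee q' q ∧ se_Done R p q' s := by
  by_cases hc : ∃ r ≤ q, ∃ t ∈ r.T, (se_u p q s).Ex t ∧ R r t
  · obtain ⟨r, hr, t, ht, hex, hRt⟩ := hc
    obtain ⟨q', h1, h2, h3, h4⟩ := fl q r (se_u p q s) t hr (se_uT h hs hsl) rfl ht hex
    refine ⟨q', h2, Or.inl ⟨t.len, lt_of_le_of_lt ht.1 h3, ?_⟩⟩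
    have h5 : t.Ex (se_u p q' s) := h4 (se_u p q' s) rfl (fun ξ hξ => se_agree s h2 hξ)
      (fun ξ hξ hξ' => se_hi p q' s hξ' (h.1.1.trans hξ))
    have e : (se_u p q' s).res t.len = t := by
      apply Nd.ext
      · rfl
      · funext ξ
        change (if ξ < t.len then (se_u p q' s).f ξ else false) = t.f ξ
        by_cases hξ : ξ < t.len
        · rw [if_pos hξ, h5.2 ξ hξ]
        · rw [if_neg hξ, t.out ξ (not_lt.1 hξ)]
    rw [e]
    exact hR _ _ _ h1 hRt
  · exact ⟨q, e1.1 q, Or.inr fun r hr t ht hex hRt => hc ⟨r, hr, t, ht, hex, hRt⟩⟩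

private theorem se_card (p : Cn) : #{s : Nd // s ∈ p.T ∧ s.len = p.top} ≤ ℵ_ 1 := by
  classical
  have hfin : ∀ s : {s : Nd // s ∈ p.T ∧ s.len = p.top},
      {ξ : Set.Iio p.top | s.1.f ξ.1 ≠ p.tp.f ξ.1}.Finite := by
    rintro ⟨s, hs, hsl⟩
    have h1 : (D s.len s.f (p.r s.len).f).Finite := hs.2
    rw [hsl] at h1
    refine Set.Finite.of_finite_image (f := Subtype.val) (h1.subset ?_)
      Subtype.val_injective.injOn
    rintro _ ⟨⟨ξ, hξ⟩, h2, rfl⟩
    exact ⟨hξ, h2⟩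
  have hinj : Function.Injective fun s : {s : Nd // s ∈ p.T ∧ s.len = p.top} =>
      (hfin s).toFinset := by
    rintro ⟨s, hs, hsl⟩ ⟨t, ht, htl⟩ h
    apply Subtype.ext
    apply Nd.ext
    · exact hsl.trans htl.symm
    · funext ξ
      change s.f ξ = t.f ξ
      rcases lt_or_ge ξ p.top with h1 | h1
      · have h2 := Finset.ext_iff.1 h ⟨ξ, h1⟩
        simp only [Set.Finite.mem_toFinset, Set.mem_ofPred_eq] at h2
        revert h2
        cases s.f ξ <;> cases t.f ξ <;> cases p.tp.f ξ <;> simp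
      · rw [s.out ξ (hsl ▸ h1), t.out ξ (htl ▸ h1)]
  have h1 := Cardinal.mk_le_of_injective hinj
  have h2 : #(Finset (Set.Iio p.top)) ≤ #(List (Set.Iio p.top)) :=
    Cardinal.mk_le_of_surjective (f := List.toFinset) List.toFinset_surjective
  have h3 := Cardinal.mk_list_le_max (Set.Iio p.top)
  exact h1.trans (h2.trans (h3.trans (max_le (Cardinal.aleph0_le_aleph 1) (mk_Iio_W2 p.top))))

private theorem se_all (e1 : S_E1) (fl : S_FL) (al : S_AL) {R : Cn → Nd → Prop}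
    (hR : ∀ p q t, q ≤ p → R p t → R q t) (p : Cn) :
    ∃ q, Ee q p ∧ ∀ s ∈ p.T, s.len = p.top → se_Done R p q s := by
  obtain ⟨q, h1, h2⟩ := al p {s : Nd // s ∈ p.T ∧ s.len = p.top}
    (fun s => {q | Ee q p ∧ se_Done R p q s.1}) (se_card p)
    (fun s q hq => by
      obtain ⟨q', h1, h2⟩ := se_step e1 fl hR hq s.2.1 s.2.2
      exact ⟨q', h1, e1.2.1 _ _ _ h1 hq, h2⟩)
    (fun s q r hq hr => ⟨e1.2.1 _ _ _ hr hq.1, se_mono hR hr hq.2⟩)
  exact ⟨q, h1, fun s hs hsl => (h2 ⟨s, hs, hsl⟩).2⟩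

theorem p_SE (lb : S_LB) (e1 : S_E1) (_np : S_NP) (fl : S_FL) (al : S_AL) : S_SE := by
  classical
  intro R hR p
  choose g hg1 hg2 using fun p => se_all e1 fl al hR p
  let q : ℕ → Cn := fun n => Nat.rec p (fun _ c => g c) n
  have hq0 : q 0 = p := rfl
  have hqs : ∀ n, q (n + 1) = g (q n) := fun n => rfl
  have hE : ∀ i j, i ≤ j → Ee (q j) (q i) := by
    intro i j hij
    induction j, hij using Nat.le_induction with
    | base => exact e1.1 _
    | succ n _ ih => exact e1.2.1 _ _ _ (by rw [hqs]; exact hg1 (q n)) ih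
  obtain ⟨Q, hQ1, hQ2⟩ := lb ℕ q (by
    rw [Cardinal.mk_nat]
    exact Cardinal.aleph0_le_aleph 1) hE
  refine ⟨Q, by rw [← hq0]; exact hQ1 0, fun s hs hsl => ?_⟩
  have hfin : (D Q.top s.f Q.tp.f).Finite := by
    have h1 : (D s.len s.f (Q.r s.len).f).Finite := hs.2
    rw [hsl] at h1
    exact h1
  -- all places of difference are below some top
  have hn : ∃ n, ∀ ξ ∈ D Q.top s.f Q.tp.f, ξ < (q n).top := by
    have h1 : ∀ ξ : W2, ∃ n, ξ < Q.top → ξ < (q n).top := by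
      intro ξ
      by_cases h : ξ < Q.top
      · obtain ⟨n, hn⟩ := hQ2 ξ h
        exact ⟨n, fun _ => hn⟩
      · exact ⟨0, fun h' => absurd h' h⟩
    choose ν hν using h1
    obtain ⟨n, hn⟩ := (hfin.image ν).bddAbove
    refine ⟨n, fun ξ hξ => lt_of_lt_of_le (hν ξ hξ.1) ?_⟩
    exact (hE _ _ (hn ⟨ξ, hξ, rfl⟩)).1.1
  obtain ⟨n, hn⟩ := hn
  have hle : (q n).top ≤ Q.top := (hQ1 n).1.1
  have hs' : s.res (q n).top ∈ (q n).T := by
    refine ⟨le_rfl, hfin.subset ?_⟩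
    rintro ξ ⟨h1, h2⟩
    have h1 : ξ < (q n).top := h1
    have h2 : (if ξ < (q n).top then s.f ξ else false) ≠ (q n).tp.f ξ := h2
    rw [if_pos h1, ← (hQ1 n).2 ξ h1] at h2
    exact ⟨lt_of_lt_of_le h1 hle, h2⟩
  have hd : se_Done R (q n) Q (s.res (q n).top) := by
    have h1 : se_Done R (q n) (q (n + 1)) (s.res (q n).top) := by
      rw [hqs]
      exact hg2 (q n) _ hs' rfl
    exact se_mono hR (hQ1 (n + 1)) h1
  have e : se_u (q n) Q (s.res (q n).top) = s := by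
    apply Nd.ext
    · exact hsl.symm
    · funext ξ
      rcases lt_or_ge ξ Q.top with h1 | h1
      · rcases lt_or_ge ξ (q n).top with h2 | h2
        · rw [se_lo _ _ _ h1 h2]
          exact if_pos h2
        · rw [se_hi _ _ _ h1 h2]
          by_contra h3
          exact absurd (hn ξ ⟨h1, fun h4 => h3 h4.symm⟩) (not_lt.2 h2)
      · rw [Nd.out _ ξ h1, s.out ξ (hsl ▸ h1)]
  unfold se_Done at hd
  rw [e] at hd
  exact hd

end Pool.Agent.NAM
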