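import Pool.Agent.Lib.MP_0d2ecd_gt.Mod.Stm

set_option autoImplicit false

/-!
# MP_0d2ecd_gt : points are separated by nodes
-/

open scoped Ordinal

namespace Pool.Agent.NAM

open Pool.Agent.Lib.MP_0d2ecd_gt (W2 D D_congr)
open Pool.Agent.FW (Ev ev_rel)

/-- two points which agree below the smaller length have the same length -/
private theorem sp_aux {M : Set Ob} {G : Set Cn}
    (h1 : ∀ p ∈ G, (∀ s ∈ TG M G, s.len ≤ p.top → s ∈ p.T) ∧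
      ∀ x ∈ PG M G, x.len ≤ p.top → x ∈ p.P)
    (h4 : ∀ α, Ob.od α ∈ M → ∃ p ∈ G, α < p.top)
    (h6 : ∀ s, Ob.nd s ∈ M → Ob.od s.len ∈ M)
    (h9 : ∀ x ∈ PG M G, ∀ γ, Ob.od γ ∈ M → γ < x.len → x.res γ ∈ TG M G)
    {x y : Nd} (hx : x ∈ PG M G) (hy : y ∈ PG M G) (hlt : x.len < y.len)
    (hag : ∀ ξ < x.len, x.f ξ = y.f ξ) : False := by
  have ho : Ob.od x.len ∈ M := h6 x hx.1
  obtain ⟨p, hp, hpt⟩ := h4 x.len ho
  have hs : y.res x.len ∈ p.T := (h1 p hp).1 _ (h9 y hy x.len ho hlt) hpt.le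
  have hxp : x ∈ p.P := (h1 p hp).2 x hx hpt.le
  have hf : (D x.len (y.res x.len).f (p.r x.len).f).Finite := hs.2
  refine hxp.2.2 ?_
  rw [D_congr (s := x.f) (s' := (y.res x.len).f) (p.r x.len).f ?_]
  · exact hf
  · intro ξ hξ
    have : (y.res x.len).f ξ = y.f ξ := if_pos hξ
    rw [this]
    exact hag ξ hξ

/-- points are separated by nodes -/
theorem p_SP (_ : S_NP) (gf : S_GF) : S_SP := by
  classical
  refine (gf.and (ev_rel (π := pp) (fun l o => ∃ (x y : Nd) (ξ : W2), l = [Ob.nd x, Ob.nd y] ∧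
    o = Ob.od ξ ∧ ξ < x.len ∧ ξ < y.len ∧ x.f ξ ≠ y.f ξ))).mono ?_
  rintro M G ⟨⟨h1, -, -, h4, -, h6, -, -, h9, h10, -⟩, hr⟩ x hx y hy hne
  by_cases hd : ∃ ξ, ξ < x.len ∧ ξ < y.len ∧ x.f ξ ≠ y.f ξ
  · obtain ⟨ξ0, hξ0⟩ := hd
    obtain ⟨o, ho, x', y', ξ, hl, rfl, hξx, hξy, hξ⟩ := hr [Ob.nd x, Ob.nd y] (by
      intro z hz
      rcases List.mem_cons.1 hz with rfl | hz
      · exact hx.1
      · rcases List.mem_singleton.1 hz with rfl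
        exact hy.1) ⟨Ob.od ξ0, x, y, ξ0, rfl, rfl, hξ0.1, hξ0.2.1, hξ0.2.2⟩
    obtain ⟨rfl, rfl⟩ : x = x' ∧ y = y' := by
      have := List.cons.inj hl
      exact ⟨Ob.nd.inj this.1, Ob.nd.inj (List.cons.inj this.2).1⟩
    obtain ⟨δ, hδ, hξδ, hδy⟩ := h10 y hy ξ ho hξy
    refine ⟨y.res δ, h9 y hy δ hδ hδy, ⟨hδy, fun η hη => (if_pos hη).symm⟩, fun hc => hξ ?_⟩
    have h := hc.2 ξ hξδ
    rw [h]
    exact if_pos hξδ
  · exfalso
    have hag : ∀ ξ, ξ < x.len → ξ < y.len → x.f ξ = y.f ξ := by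
      intro ξ h h'
      by_contra hc
      exact hd ⟨ξ, h, h', hc⟩
    rcases lt_trichotomy x.len y.len with hlt | heq | hlt
    · exact sp_aux h1 h4 h6 h9 hx hy hlt (fun ξ hξ => hag ξ hξ (hξ.trans hlt))
    · refine hne (Nd.ext heq (funext fun ξ => ?_))
      by_cases hξ : ξ < x.len
      · exact hag ξ hξ (heq ▸ hξ)
      · rw [x.out ξ (not_lt.1 hξ), y.out ξ (heq ▸ not_lt.1 hξ)]
    · exact sp_aux h1 h4 h6 h9 hy hx hlt (fun ξ hξ => (hag ξ (hξ.trans hlt) hξ).symm)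

end Pool.Agent.NAM
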