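import Pool.Agent.Lib.MP_0d2ecd_gt.Mod.Stm

set_option autoImplicit false

/-!
# MP_0d2ecd_gt : sequences of sets of points given by names
-/

open scoped Ordinal Cardinal

namespace Pool.Agent.NAM

open Pool.Agent.Lib.MP_0d2ecd_gt (W2 D)
open Pool.Agent.CR (V Nm nat natN Memf Eqf IsTransModelZFC)
open Pool.Agent.FW (Ev)

private theorem ss_kk : Ev pp (fun M _ => ∀ n : ℕ, Ob.kk n ∈ M) := by
  refine (Ev.all fun n : ℕ => FW.ev_fun (π := pp) (fun _ => Ob.kk n)).mono ?_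
  intro M G h n
  exact h n [] (by simp)

theorem p_SS (bg : S_BG) (os : S_OS) : S_SS := by
  intro E hE
  have h1 : Ev pp (fun M G => ∀ n : ℕ, ∀ l : List Ob, (∀ x ∈ l, x ∈ M) →
      bag elN (E l n) ∈ pp.H M ∧
      pp.vl M G (bag elN (E l n)) = cs (im M G {x | x ∈ PG M G ∧ ∃ p ∈ G, p ∈ E l n x})) :=
    Ev.all fun n => os (fun l => E l n) (fun l x p hp => hE l n x p hp)
  have h2 := bg ℕ Ob.kk (fun m n h => by simpa using h)
    (fun l n => FW.opN (natN Cn n) (bag elN (E l n))) (fun _ _ => Set.univ)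
  refine ((h1.and h2).and ((ss_kk.and FW.ev_ne).and (FW.ev_natN.and FW.ev_opN))).mono ?_
  rintro M G ⟨⟨h1, h2⟩, ⟨hk, hne⟩, hnat, hop⟩ l hl
  obtain ⟨h3, -, h4⟩ := h2 l hl
  refine ⟨_, h3, ?_⟩
  change pp.vl M G _ = _
  apply ZFSet.ext
  intro z
  rw [h4 z, seqS, ZFSet.mem_range]
  obtain ⟨p0, hp0⟩ := hne
  have h5 : ∀ n : ℕ, pp.vl M G (FW.opN (natN Cn n) (bag elN (E l n))) =
      ZFSet.pair (nat n) (cs (im M G {x | x ∈ PG M G ∧ ∃ p ∈ G, p ∈ E l n x})) := by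
    intro n
    rw [(hop _ (hnat n).1 _ (h1 n l hl).1).2, (hnat n).2, (h1 n l hl).2]
  constructor
  · rintro ⟨n, -, -, rfl⟩
    exact ⟨n, (h5 n).symm⟩
  · rintro ⟨n, rfl⟩
    exact ⟨n, hk n, ⟨p0, hp0, Set.mem_univ _⟩, (h5 n).symm⟩

end Pool.Agent.NAM
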