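import Pool.Agent.Lib.MP_0d2ecd_gt.Mod.Stm

set_option autoImplicit false

/-!
# MP_0d2ecd_gt, [T1] : points are closed (helper28)
-/

namespace Pool.Agent.NAM

open Pool.Agent.Lib.MP_0d2ecd_gt (W2 D)
open Pool.Agent.CR (V Nm nat natN Memf Eqf)
open Pool.Agent.FW (Ev ev_ne)

/-- the conditions which decide that `y` is a point different from the given one -/
private def t1E (l : List Ob) (y : Nd) : Set Cn := {p | y ∈ p.P ∧ l ≠ [Ob.nd y]}

theorem p_T1 (xn : S_XN) (os : S_OS) (sp : S_SP) : S_T1 := by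
  refine (xn.and ((os t1E fun l x p h => h.1).and sp)).mono ?_
  rintro M G ⟨⟨_, hAv, hinj, _, _⟩, hos, hsp⟩ x
  obtain ⟨x0, hx0, hx⟩ := (hAv x.1).1 x.2
  have hO : {y : Nd | y ∈ PG M G ∧ ∃ p ∈ G, p ∈ t1E [Ob.nd x0] y} = {y | y ∈ PG M G ∧ y ≠ x0} := by
    ext y
    constructor
    · rintro ⟨h1, p, hp, h2, h3⟩
      exact ⟨h1, fun h => h3 (by rw [h])⟩
    · rintro ⟨⟨h1, p, hp, h2⟩, h3⟩
      refine ⟨⟨h1, p, hp, h2⟩, p, hp, h2, fun h => h3 ?_⟩
      simpa using h.symm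
  have him : ({x}ᶜ : Set (El (Av M G))) = im M G {y | y ∈ PG M G ∧ y ≠ x0} := by
    ext z
    constructor
    · intro hz
      obtain ⟨y, hy, hzy⟩ := (hAv z.1).1 z.2
      refine ⟨y, ⟨hy, ?_⟩, hzy⟩
      rintro rfl
      exact hz (Subtype.ext (hzy.trans hx.symm))
    · rintro ⟨y, ⟨hy, hne⟩, hzy⟩ hzx
      have hzx : z = x := hzx
      apply hne
      have h1 : pp.vl M G (elN y) = pp.vl M G (elN x0) := by
        rw [← hzy, ← hx, hzx]
      have h2 : im M G {y} = im M G {x0} := by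
        ext w
        constructor
        · rintro ⟨a, ha, hw⟩
          have ha : a = y := ha
          exact ⟨x0, rfl, by rw [hw, ha, h1]⟩
        · rintro ⟨a, ha, hw⟩
          have ha : a = x0 := ha
          exact ⟨y, rfl, by rw [hw, ha, h1]⟩
      have h3 := hinj {y} {x0} (by rintro _ rfl; exact hy) (by rintro _ rfl; exact hx0) h2
      exact Set.singleton_injective h3
  refine ⟨{y | y ∈ PG M G ∧ y ≠ x0}, ⟨fun y hy => hy.1, ?_⟩, him, ?_⟩
  · rintro y ⟨hy1, hy2⟩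
    obtain ⟨s, hs, h1, h2⟩ := hsp x0 hx0 y hy1 (Ne.symm hy2)
    refine ⟨s, hs, h1, ?_⟩
    rintro z ⟨hz1, hz2⟩
    exact ⟨hz1, fun h => h2 (h ▸ hz2)⟩
  · obtain ⟨h1, h2⟩ := hos [Ob.nd x0] (by
      intro o ho
      rw [List.mem_singleton] at ho
      rw [ho]
      exact hx0.1)
    rw [hO] at h2
    rw [him, ← h2]
    exact ⟨_, h1, rfl⟩

end Pool.Agent.NAM
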