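import Pool.Agent.Lib.MP_0d2ecd_gt.Mod.Stm

set_option autoImplicit false

/-!
# MP_0d2ecd_gt : the topology belongs to the model
-/

namespace Pool.Agent.NAM

open Pool.Agent.CR (V Nm)
open Pool.Agent.FW (Ev ev_rel ev_ne)

/-- the set of conditions deciding that `x` is in the open set of `S` -/
private def tm_E (l : List Ob) (x : Nd) : Set Cn :=
  {p | x ∈ p.P ∧ ∃ S, l.head? = some (Ob.ss S) ∧ ∃ s ∈ S, s.Ec x}

private theorem tm_E_mem (S : Set Nd) (x : Nd) (p : Cn) :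
    p ∈ tm_E [Ob.ss S] x ↔ x ∈ p.P ∧ ∃ s ∈ S, s.Ec x := by
  constructor
  · rintro ⟨h1, S', h2, h3⟩
    have h4 : Ob.ss S = Ob.ss S' := Option.some.inj h2
    have h5 : S = S' := by simpa using h4
    rw [h5]
    exact ⟨h1, h3⟩
  · rintro ⟨h1, h2⟩
    exact ⟨h1, S, rfl, h2⟩

private theorem tm_res (s x : Nd) (h : s.Ec x) : x.res s.len = s := by
  apply Nd.ext
  · rfl
  · funext ξ
    show (if ξ < s.len then x.f ξ else false) = s.f ξ
    by_cases h1 : ξ < s.len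
    · rw [if_pos h1]
      exact h.2 ξ h1
    · rw [if_neg h1]
      exact (s.out ξ (not_lt.1 h1)).symm

theorem p_TM (ij : S_IJ) (bg : S_BG) (el : S_EL) (xn : S_XN) (os : S_OS) (gf : S_GF)
    (rp : S_RP) : S_TM := by
  have hbg := bg (Set Nd) Ob.ss (fun S S' h => by simpa using h)
    (fun _ S => bag elN (tm_E [Ob.ss S])) (fun _ _ => Set.univ)
  have hos := os tm_E (fun l x p h => h.1)
  have hrel : Ev pp (fun M _ => ∀ x S, Ob.nd x ∈ M → Ob.ss S ∈ M → (∃ s ∈ S, s.Ec x) →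
      ∃ s ∈ S, s.Ec x ∧ Ob.nd s ∈ M) := by
    refine (ev_rel (π := pp) fun l o => ∃ x S s, l = [Ob.nd x, Ob.ss S] ∧ o = Ob.nd s ∧ s ∈ S ∧
      s.Ec x).mono ?_
    rintro M _ h x S hx hS ⟨s, hs, hsx⟩
    obtain ⟨o, ho, x', S', s', h1, h2, h3, h4⟩ := h [Ob.nd x, Ob.ss S] (by
      intro y hy
      simp only [List.mem_cons, List.not_mem_nil, or_false] at hy
      rcases hy with rfl | rfl
      · exact hx
      · exact hS) ⟨Ob.nd s, x, S, s, rfl, rfl, hs, hsx⟩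
    have h5 : x = x' ∧ S = S' := by simpa using h1
    obtain ⟨rfl, rfl⟩ := h5
    rw [h2] at ho
    exact ⟨s', h3, h4, ho⟩
  refine (hbg.and (hos.and (hrel.and (gf.and (rp.and ev_ne))))).mono ?_
  rintro M G ⟨hbg, hos, hrel, hgf, hrp, hne⟩
  obtain ⟨-, -, -, -, -, hgf1, -, -, hgf2, -, -⟩ := hgf
  obtain ⟨hν, -, hz⟩ := hbg [] (by simp)
  -- the names of the open sets
  have hval : ∀ S, Ob.ss S ∈ M → bag elN (tm_E [Ob.ss S]) ∈ pp.H M ∧
      pp.vl M G (bag elN (tm_E [Ob.ss S])) = cs (im M G (OG M G S)) := by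
    intro S hS
    obtain ⟨h1, h2⟩ := hos [Ob.ss S] (by
      intro y hy
      simp only [List.mem_cons, List.not_mem_nil, or_false] at hy
      rw [hy]
      exact hS)
    refine ⟨h1, h2.trans ?_⟩
    have h3 : {x | x ∈ PG M G ∧ ∃ p ∈ G, p ∈ tm_E [Ob.ss S] x} = OG M G S := by
      ext x
      constructor
      · rintro ⟨hx, p, hp, hpx⟩
        exact ⟨hx, ((tm_E_mem S x p).1 hpx).2⟩
      · rintro ⟨hx, hS'⟩
        obtain ⟨p, hp, hpx⟩ := hx.2
        exact ⟨hx, p, hp, (tm_E_mem S x p).2 ⟨hpx, hS'⟩⟩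
    rw [h3]
  -- these sets are open
  have hop : ∀ S, Ob.ss S ∈ M → Op M G (OG M G S) := by
    intro S hS
    refine ⟨fun x hx => hx.1, ?_⟩
    rintro x ⟨hx, hS'⟩
    obtain ⟨s, hs, hsx, hsM⟩ := hrel x S hx.1 hS hS'
    refine ⟨s, ?_, hsx, fun y hy => ⟨hy.1, s, hs, hy.2⟩⟩
    have h1 := hgf2 x hx s.len (hgf1 s hsM) hsx.1
    rw [tm_res s x hsx] at h1
    exact h1
  have hfam : fam (TT M G) = pp.vl M G (bag (fun S => bag elN (tm_E [Ob.ss S]))
      (fun _ => Set.univ)) := by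
    apply ZFSet.ext
    intro z
    rw [hz z, ij.2.2.2.2.1]
    constructor
    · rintro ⟨W, ⟨O, hO, hW, hWN⟩, rfl⟩
      subst hW
      obtain ⟨β, S, -, hS, -, -, h1, h2⟩ := hrp O hO hWN
      obtain ⟨p, hp⟩ := hne
      refine ⟨S, hS, ⟨p, hp, trivial⟩, ?_⟩
      rw [(hval S hS).2]
      have h3 : O = OG M G S := by
        ext x
        constructor
        · intro hx
          obtain ⟨s, hs, -, hsx⟩ := h2 x hx
          exact ⟨hO.1 hx, s, hs, hsx⟩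
        · rintro ⟨hx, hS'⟩
          obtain ⟨s, hs, hsx, hsM⟩ := hrel x S hx.1 hS hS'
          exact h1 s hs hsM ⟨hx, hsx⟩
      rw [← h3]
    · rintro ⟨S, hS, -, rfl⟩
      obtain ⟨h1, h2⟩ := hval S hS
      refine ⟨im M G (OG M G S), ⟨OG M G S, hop S hS, rfl, ?_⟩, h2⟩
      rw [← h2]
      exact ⟨_, h1, rfl⟩
  rw [hfam]
  exact ⟨_, hν, rfl⟩

end Pool.Agent.NAM
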