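import Pool.Agent.Lib.MP_0d2ecd_gt.Mod.Stm

set_option autoImplicit false

/-!
# MP_0d2ecd_gt : the underlying set of the space
-/

namespace Pool.Agent.NAM

open Pool.Agent.CR (V Nm nat natN Memf Eqf IsTransModelZFC mem_val)
open Pool.Agent.FW (Ev ev_fun ev_rel ev_sub ev_ne)

theorem p_XN (bg : S_BG) (el : S_EL) : S_XN := by
  have h := bg Nd Ob.nd (fun _ _ h => by simpa using h) (fun _ => elN) (fun _ x => {p : Cn | x ∈ p.P})
  refine (h.and el).mono ?_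
  rintro M G ⟨h1, -, h3⟩
  obtain ⟨h4, -, h5⟩ := h1 [] (by simp)
  have hmem : ∀ z, z ∈ Av M G ↔ ∃ x ∈ PG M G, z = pp.vl M G (elN x) := by
    intro z
    change z ∈ pp.vl M G (bag elN (fun x => {p : Cn | x ∈ p.P})) ↔ _
    rw [h5 z]
    constructor
    · rintro ⟨x, hx, ⟨p, hp, hpx⟩, hz⟩
      exact ⟨x, ⟨hx, p, hp, hpx⟩, hz⟩
    · rintro ⟨x, ⟨hx, p, hp, hpx⟩, hz⟩
      exact ⟨x, hx, ⟨p, hp, hpx⟩, hz⟩
  have hcs : ∀ (O : Set Nd) (x : Nd), O ⊆ PG M G → x ∈ PG M G →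
      (pp.vl M G (elN x) ∈ cs (im M G O) ↔ x ∈ O) := by
    intro O x hO hx
    unfold cs
    rw [ZFSet.mem_sep]
    constructor
    · rintro ⟨_, _, y, hy, hxy⟩
      have h6 : pp.vl M G (elN x) = pp.vl M G (elN y) := hxy
      rw [h3 x y hx.1 (hO hy).1 h6]
      exact hy
    · intro hxO
      have h6 : pp.vl M G (elN x) ∈ Av M G := (hmem _).2 ⟨x, hx, rfl⟩
      exact ⟨h6, h6, x, hxO, rfl⟩
  refine ⟨⟨XN, h4, rfl⟩, hmem, ?_, ?_, hcs⟩
  · intro O O' hO hO' he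
    ext x
    constructor
    · intro hx
      have := (hcs O x hO (hO hx)).2 hx
      rw [he] at this
      exact (hcs O' x hO' (hO hx)).1 this
    · intro hx
      have := (hcs O' x hO' (hO' hx)).2 hx
      rw [← he] at this
      exact (hcs O x hO (hO' hx)).1 this
  · intro W
    refine ⟨{x | x ∈ PG M G ∧ ∃ z ∈ W, z.1 = pp.vl M G (elN x)}, fun x hx => hx.1, ?_⟩
    ext z
    constructor
    · intro hz
      obtain ⟨x, hx, hzx⟩ := (hmem z.1).1 z.2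
      exact ⟨x, ⟨hx, z, hz, hzx⟩, hzx⟩
    · rintro ⟨x, ⟨hx, z', hz', hzx'⟩, hzx⟩
      have : z = z' := Subtype.ext (hzx.trans hzx'.symm)
      rw [this]
      exact hz'

end Pool.Agent.NAM
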