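import Pool.Agent.Lib.MP_0d2ecd_gt.Mod.Stm

set_option autoImplicit false

/-!
# MP_0d2ecd_gt : closure of a transitive model under simple operations
-/

namespace Pool.Agent.NAM

open Pool.Agent.CR (V nat IsTransModelZFC Fml Sat cons)

/-- separation -/
theorem zc_sep {N : Set V} (hN : IsTransModelZFC N) (φ : Fml) (c : V) (hc : c ∈ N) (a b : V)
    (ha : a ∈ N) (hb : ∀ x, x ∈ b ↔ x ∈ a ∧ (x ∈ N → Sat N φ (cons x fun _ => c))) : b ∈ N := by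
  obtain ⟨b', hb', h⟩ := hN.separation φ (fun _ => c) (fun _ => hc) a ha
  have : b = b' := by
    ext x
    rw [hb]
    constructor
    · rintro ⟨h1, h2⟩
      have hx := hN.transitive a ha x h1
      exact (h x hx).2 ⟨h1, h2 hx⟩
    · intro h1
      have hx := hN.transitive b' hb' x h1
      have h2 := (h x hx).1 h1
      exact ⟨h2.1, fun _ => h2.2⟩
  rw [this]
  exact hb'

theorem p_ZC (ij : S_IJ) : S_ZC := by
  obtain ⟨-, i2, i3, i4, i5, -⟩ := ij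
  intro N hN A hA
  have hU : ∀ F : Set (Set (El A)), fam F ∈ N → cs (⋃₀ F) ∈ N := by
    intro F hF
    obtain ⟨b, hb, h⟩ := hN.union (fam F) hF
    have : cs (⋃₀ F) = b := by
      ext z
      rw [i3]
      constructor
      · rintro ⟨hz, O, hO, hzO⟩
        have h1 : cs O ∈ fam F := (i4 A F O).2 hO
        refine (h z (hN.transitive A hA z hz)).2 ⟨cs O, hN.transitive _ hF _ h1, h1, ?_⟩
        exact (i3 A O z).2 ⟨hz, hzO⟩
      · intro h1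
        obtain ⟨y, hy, hyF, hzy⟩ := (h z (hN.transitive b hb z h1)).1 h1
        obtain ⟨O, hO, rfl⟩ := (i5 A F y).1 hyF
        obtain ⟨hz, hzO⟩ := (i3 A O z).1 hzy
        exact ⟨hz, O, hO, hzO⟩
    rw [this]
    exact hb
  have hT : ∀ (F : Set (Set (El A))) (O : Set (El A)), fam F ∈ N → O ∈ F → cs O ∈ N :=
    fun F O hF hO => hN.transitive _ hF _ ((i4 A F O).2 hO)
  refine ⟨fun O O' hO hO' => ⟨?_, ?_⟩, hU, hT, fun F K L hF hK hL => hU _ ?_⟩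
  · refine zc_sep hN (.mem 0 1) (cs O') hO' (cs O) _ hO fun z => ?_
    rw [i3, i3]
    constructor
    · rintro ⟨hz, h1, h2⟩
      exact ⟨⟨hz, h1⟩, fun _ => (i3 A O' z).2 ⟨hz, h2⟩⟩
    · rintro ⟨⟨hz, h1⟩, h2⟩
      obtain ⟨hz', h3⟩ := (i3 A O' z).1 (h2 (hN.transitive A hA z hz))
      exact ⟨hz, h1, h3⟩
  · refine zc_sep hN (.imp (.mem 0 1) .bot) (cs O) hO A _ hA fun z => ?_
    rw [i3]
    constructor
    · rintro ⟨hz, h1⟩
      refine ⟨hz, fun _ h2 => ?_⟩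
      obtain ⟨hz', h3⟩ := (i3 A O z).1 h2
      exact h1 h3
    · rintro ⟨hz, h1⟩
      exact ⟨hz, fun h2 => h1 (hN.transitive A hA z hz) ((i3 A O z).2 ⟨hz, h2⟩)⟩
  · -- two separations
    have hF1 : fam {U | U ∈ F ∧ (U ∩ K).Nonempty} ∈ N := by
      refine zc_sep hN (.imp (.all (.imp (.mem 0 1) (.imp (.mem 0 2) .bot))) .bot) (cs K) hK
        (fam F) _ hF fun z => ?_
      rw [i5, i5]
      constructor
      · rintro ⟨U, ⟨hU1, x, hxU, hxK⟩, rfl⟩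
        refine ⟨⟨U, hU1, rfl⟩, fun _ h => ?_⟩
        exact h x.1 (hN.transitive A hA _ x.2) ((i3 A U x.1).2 ⟨x.2, hxU⟩)
          ((i3 A K x.1).2 ⟨x.2, hxK⟩)
      · rintro ⟨⟨U, hU1, rfl⟩, h⟩
        refine ⟨U, ⟨hU1, ?_⟩, rfl⟩
        by_contra hne
        refine h (hT F U hF hU1) fun x hx h1 h2 => ?_
        obtain ⟨hz, h3⟩ := (i3 A U x).1 h1
        obtain ⟨hz', h4⟩ := (i3 A K x).1 h2
        exact hne ⟨⟨x, hz⟩, h3, h4⟩
    refine zc_sep hN (.all (.imp (.mem 0 1) (.imp (.mem 0 2) .bot))) (cs L) hL _ _ hF1 fun z => ?_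
    rw [i5, i5]
    constructor
    · rintro ⟨U, ⟨hU1, hU2, hU3⟩, rfl⟩
      refine ⟨⟨U, ⟨hU1, hU2⟩, rfl⟩, fun _ x hx h1 h2 => ?_⟩
      obtain ⟨hz, h3⟩ := (i3 A U x).1 h1
      obtain ⟨hz', h4⟩ := (i3 A L x).1 h2
      exact Set.disjoint_left.1 hU3 h3 h4
    · rintro ⟨⟨U, ⟨hU1, hU2⟩, rfl⟩, h⟩
      refine ⟨U, ⟨hU1, hU2, Set.disjoint_left.2 fun x hxU hxL => ?_⟩, rfl⟩
      exact h (hT F U hF hU1) x.1 (hN.transitive A hA _ x.2) ((i3 A U x.1).2 ⟨x.2, hxU⟩)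
          ((i3 A L x.1).2 ⟨x.2, hxL⟩)

end Pool.Agent.NAM
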