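import Pool.Agent.Lib.MP_0d2ecd_gt.Mod.Stm

set_option autoImplicit false

/-!
# MP_0d2ecd_gt, [FU] : truth for `FU` (helper28)
-/

namespace Pool.Agent.NAM

open Pool.Agent.Lib.MP_0d2ecd_gt (W2 D)
open Pool.Agent.CR (V Nm nat natN Memf Eqf Memf_mono)
open Pool.Agent.FW (Ev ev_gen ev_rel ev_mem ev_dir ev_sub)

/-- the set of conditions for the failure of `FU` -/
private def fuS (l : List Ob) : Set Cn :=
  {q | ∃ (σ : Nm Cn) (s : Nd), l = [Ob.nm σ, Ob.nd s] ∧ ∃ x ∈ q.P, Memf (elN x) σ q ∧ ¬ s.Ec x}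

private def fuR (l : List Ob) (o : Ob) : Prop :=
  ∃ (σ : Nm Cn) (s : Nd) (q : Cn) (x : Nd), l = [Ob.nm σ, Ob.nd s, Ob.cn q] ∧ o = Ob.nd x ∧
    x ∈ q.P ∧ Memf (elN x) σ q ∧ ¬ s.Ec x

theorem p_FU (el : S_EL) (xn : S_XN) (np : S_NP) : S_FU := by
  have _ := xn
  refine (el.and ((ev_gen fuS).and ((ev_rel fuR).and (ev_mem.and (ev_dir.and ev_sub))))).mono ?_
  rintro M G ⟨hel, hgen, hrel, hmem, hdir, hsub⟩ σ hσ s hs
  constructor
  · intro h
    rcases hgen [Ob.nm σ, Ob.nd s] (by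
      intro x hx
      simp only [List.mem_cons, List.not_mem_nil, or_false] at hx
      rcases hx with rfl | rfl
      · exact hσ
      · exact hs.1) with ⟨q, hq, σ', s', hl, hx⟩ | ⟨p, hp, hp2⟩
    · exfalso
      obtain ⟨o, ho, σ1, s1, q1, x, hl1, rfl, hxP, hxm, hxs⟩ :=
        hrel [Ob.nm σ, Ob.nd s, Ob.cn q] (by
          intro x hx
          simp only [List.mem_cons, List.not_mem_nil, or_false] at hx
          rcases hx with rfl | rfl | rfl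
          · exact hσ
          · exact hs.1
          · exact hsub hq) (by
          obtain ⟨x, hx1, hx2, hx3⟩ := hx
          simp only [List.cons.injEq, Ob.nm.injEq, Ob.nd.injEq, and_true] at hl
          obtain ⟨rfl, rfl⟩ := hl
          exact ⟨Ob.nd x, σ, s, q, x, rfl, rfl, hx1, hx2, hx3⟩)
      simp only [List.cons.injEq, Ob.nm.injEq, Ob.nd.injEq, Ob.cn.injEq, and_true] at hl1
      obtain ⟨rfl, rfl, rfl⟩ := hl1
      exact hxs (h x ⟨ho, q, hq, hxP⟩ ((hmem _ (hel.1 x ho) _ hσ).2 ⟨q, hq, hxm⟩))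
    · refine ⟨p, hp, ?_⟩
      intro q hq x hx hm
      by_contra hcon
      exact hp2 q ⟨σ, s, rfl, x, hx, hm, hcon⟩ q hq le_rfl
  · rintro ⟨p, hp, hFU⟩ x ⟨hx, p2, hp2, hx2⟩ hv
    obtain ⟨p1, hp1, hm⟩ := (hmem _ (hel.1 x hx) _ hσ).1 hv
    obtain ⟨r1, hr1, h1, h2⟩ := hdir p hp p1 hp1
    obtain ⟨r, hr, h3, h4⟩ := hdir r1 hr1 p2 hp2
    exact hFU r (h3.trans h1) x ((np.1 p2 r h4).2 hx2) (Memf_mono hm (h3.trans h2))

end Pool.Agent.NAM
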