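import Pool.Agent.Lib.MP_0d2ecd_gt.Mod.Stm

set_option autoImplicit false

/-!
# MP_0d2ecd_gt, [NP] : basic facts about nodes and points (helper28)
-/

namespace Pool.Agent.NAM

open Pool.Agent.Lib.MP_0d2ecd_gt (W2 D D_symm D_tri D_mono D_congr)

private theorem np_self (β : W2) (s : W2 → Bool) : (D β s s).Finite := by
  have : D β s s = ∅ := by
    ext ξ
    constructor
    · rintro ⟨-, h⟩
      exact absurd rfl h
    · intro h
      exact absurd h (Set.notMem_empty _)
  rw [this]
  exact Set.finite_empty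

private theorem np_tri {β : W2} {s t r : W2 → Bool} (h1 : (D β s t).Finite) (h2 : (D β t r).Finite) :
    (D β s r).Finite := (h1.union h2).subset (D_tri β s t r)

private theorem np_symm {β : W2} {s t : W2 → Bool} (h1 : (D β s t).Finite) : (D β t s).Finite := by
  rwa [D_symm]

private theorem np_res (s : Nd) (γ : W2) (t : W2 → Bool) (h : (D γ s.f t).Finite) :
    (D γ (s.res γ).f t).Finite := by
  rw [D_congr (s := (s.res γ).f) (s' := s.f) t]
  · exact h
  · intro ξ hξ
    exact if_pos hξ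

theorem p_NP : S_NP := by
  refine ⟨?_, ?_, ?_, ?_, ?_, ?_, ?_⟩
  · intro p q hqp
    refine ⟨?_, ?_⟩
    · rintro s ⟨h1, h2⟩
      refine ⟨h1.trans hqp.1, ?_⟩
      rw [hqp.2 _ h1]
      exact h2
    · rintro x ⟨h1, h2, h3⟩
      refine ⟨h1.trans hqp.1, ?_, ?_⟩
      · intro γ hγ
        rw [hqp.2 _ (hγ.le.trans h1)]
        exact h2 γ hγ
      · rw [hqp.2 _ h1]
        exact h3
  · intro p q hqp
    refine ⟨?_, ?_⟩
    · rintro s ⟨h1, h2⟩ h0
      refine ⟨h0, ?_⟩
      rw [← hqp.2 _ h0]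
      exact h2
    · rintro x ⟨h1, h2, h3⟩ h0
      refine ⟨h0, ?_, ?_⟩
      · intro γ hγ
        rw [← hqp.2 _ (hγ.le.trans h0)]
        exact h2 γ hγ
      · rw [← hqp.2 _ h0]
        exact h3
  · rintro p s γ ⟨h1, h2⟩ hγ
    refine ⟨hγ.trans h1, ?_⟩
    change (D γ (s.res γ).f (p.r γ).f).Finite
    refine np_res s γ _ (np_tri (h2.subset (D_mono hγ _ _)) (p.coh s.len γ hγ h1))
  · rintro p x γ ⟨h1, h2, h3⟩ hγ
    refine ⟨⟨hγ.le.trans h1, ?_⟩, hγ, ?_⟩
    · change (D γ (x.res γ).f (p.r γ).f).Finite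
      exact np_res x γ _ (h2 γ hγ)
    · intro ξ hξ
      exact (if_pos hξ).symm
  · rintro p x γ ⟨h1, h2, h3⟩ hγ
    by_contra hcon
    push Not at hcon
    apply h3
    have h4 : D x.len x.f (p.r x.len).f ⊆ D γ x.f (p.r x.len).f ∪ {γ} := by
      rintro η ⟨hη, hne⟩
      rcases lt_trichotomy η γ with h5 | h5 | h5
      · exact Or.inl ⟨h5, hne⟩
      · exact Or.inr h5
      · exact absurd hη (not_lt.2 (hcon η h5))
    refine Set.Finite.subset (Set.Finite.union ?_ (Set.finite_singleton _)) h4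
    exact np_tri (h2 γ hγ) (np_symm (p.coh x.len γ hγ.le h1))
  · rintro p x ⟨h1, h2, h3⟩
    by_contra hcon
    push Not at hcon
    apply h3
    have h4 : D x.len x.f (p.r x.len).f = ∅ := by
      ext ξ
      constructor
      · rintro ⟨h5, -⟩
        exact absurd h5 (not_lt.2 (hcon ξ))
      · intro h
        exact absurd h (Set.notMem_empty _)
    rw [h4]
    exact Set.finite_empty
  · intro p
    have h1 : p.tp.len = p.top := p.len p.top
    refine ⟨h1.le, ?_⟩
    rw [h1]
    exact np_self _ _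

end Pool.Agent.NAM
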