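import Pool.Agent.Lib.MP_0d2ecd_gt.Mod.Stm

set_option autoImplicit false

/-!
# MP_0d2ecd_gt : the generic family of open sets is a topology in the model
-/

namespace Pool.Agent.NAM

open Pool.Agent.Lib.MP_0d2ecd_gt (W2 D)
open Pool.Agent.CR (V Nm IsTransModelZFC)
open Pool.Agent.FW (Ev ev_zfc)

private theorem tp_res_Ec {x : Nd} {γ : W2} (h : γ < x.len) : (x.res γ).Ec x :=
  ⟨h, fun ξ hξ => by
    have h1 : ξ < γ := hξ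
    show x.f ξ = if ξ < γ then x.f ξ else false
    rw [if_pos h1]⟩

private theorem tp_sub {M : Set Ob} {G : Set Cn} {s t x : Nd} (h : s.len ≤ t.len) (hs : s.Ec x)
    (ht : t.Ec x) : BG M G t ⊆ BG M G s := by
  rintro y ⟨hy, h1, h2⟩
  refine ⟨hy, lt_of_le_of_lt h h1, fun ξ hξ => ?_⟩
  have hξ' : ξ < t.len := lt_of_lt_of_le hξ h
  rw [h2 ξ hξ', ← ht.2 ξ hξ', hs.2 ξ hξ]

private theorem tp_inter {M : Set Ob} {G : Set Cn} {O O' : Set Nd} (h : Op M G O)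
    (h' : Op M G O') : Op M G (O ∩ O') := by
  refine ⟨fun x hx => h.1 hx.1, fun x hx => ?_⟩
  obtain ⟨s, hs, hsx, hsO⟩ := h.2 x hx.1
  obtain ⟨t, ht, htx, htO⟩ := h'.2 x hx.2
  rcases le_total s.len t.len with hl | hl
  · exact ⟨t, ht, htx, fun y hy => ⟨hsO (tp_sub hl hsx htx hy), htO hy⟩⟩
  · exact ⟨s, hs, hsx, fun y hy => ⟨hsO hy, htO (tp_sub hl htx hsx hy)⟩⟩

/-- it is a topology -/
theorem p_TP (xn : S_XN) (zc : S_ZC) (ij : S_IJ) (gf : S_GF) (tm : S_TM) : S_TP := by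
  obtain ⟨_, _, ij3, _, _, _⟩ := ij
  refine (xn.and (gf.and (tm.and ev_zfc))).mono ?_
  rintro M G ⟨⟨hA, hAm, hinj, hsur, hmem⟩, ⟨_, _, _, _, _, _, _, _, gf9, _, gf11⟩, htm, hz⟩
  obtain ⟨z1, z2, _, _⟩ := zc (pp.N M G) hz (Av M G) hA
  refine ⟨htm, ?_, ?_, ?_⟩
  · refine ⟨PG M G, ⟨subset_rfl, fun x hx => ?_⟩, ?_, ?_⟩
    · obtain ⟨γ, hγ, hγx⟩ := gf11 x hx
      exact ⟨x.res γ, gf9 x hx γ hγ hγx, tp_res_Ec hγx, fun y hy => hy.1⟩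
    · ext z
      refine ⟨fun _ => ?_, fun _ => trivial⟩
      obtain ⟨x, hx, hzx⟩ := (hAm z.1).1 z.2
      exact ⟨x, hx, hzx⟩
    · have e : cs (Set.univ : Set (El (Av M G))) = Av M G := by
        apply ZFSet.ext
        intro z
        rw [ij3]
        exact ⟨fun h => h.1, fun h => ⟨h, trivial⟩⟩
      rw [e]
      exact hA
  · rintro O ⟨O1, h1, h2, h3⟩ O' ⟨O1', h1', h2', h3'⟩
    refine ⟨O1 ∩ O1', tp_inter h1 h1', ?_, (z1 O O' h3 h3').1⟩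
    subst h2
    subst h2'
    ext z
    constructor
    · rintro ⟨⟨x, hx, hzx⟩, hz'⟩
      refine ⟨x, ⟨hx, ?_⟩, hzx⟩
      rw [← hmem O1' x h1'.1 (h1.1 hx), ← hzx, ij3]
      exact ⟨z.2, hz'⟩
    · rintro ⟨x, ⟨hx, hx'⟩, hzx⟩
      exact ⟨⟨x, hx, hzx⟩, ⟨x, hx', hzx⟩⟩
  · intro S hS hSN
    refine ⟨{x | ∃ O1, Op M G O1 ∧ im M G O1 ∈ S ∧ x ∈ O1}, ⟨?_, ?_⟩, ?_, z2 S hSN⟩
    · rintro x ⟨O1, h1, _, hx⟩
      exact h1.1 hx
    · rintro x ⟨O1, h1, h2, hx⟩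
      obtain ⟨s, hs, hsx, hsO⟩ := h1.2 x hx
      exact ⟨s, hs, hsx, fun y hy => ⟨O1, h1, h2, hsO hy⟩⟩
    · ext z
      constructor
      · rintro ⟨W, hW, hzW⟩
        obtain ⟨O1, h1, h2, _⟩ := hS hW
        have hz' : z ∈ im M G O1 := by rw [← h2]; exact hzW
        obtain ⟨x, hx, hzx⟩ := hz'
        exact ⟨x, ⟨O1, h1, by rw [← h2]; exact hW, hx⟩, hzx⟩
      · rintro ⟨x, ⟨O1, _, h2, hx⟩, hzx⟩
        exact ⟨im M G O1, h2, x, hx, hzx⟩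

end Pool.Agent.NAM
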